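import Mathlib

/-!
# Bessel systems and the trace functional of a graph
-/

set_option linter.unusedSectionVars false

namespace Pool.Agent.LSp

open Finset

variable {V : Type*} [Fintype V] [DecidableEq V]
variable {F : Type*} [NormedAddCommGroup F] [InnerProductSpace ℝ F]

/-- Bessel system. -/
def Bes (q : V → F) : Prop := ∀ x : V → ℝ, ‖∑ i, x i • q i‖ ^ 2 ≤ ∑ i, x i ^ 2

/-- `tr (Q (I - L))`. -/
noncomputable def Tr (G : SimpleGraph V) [DecidableRel G.Adj] (q : V → F) : ℝ :=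
  ∑ i, ‖q i‖ ^ 2 - (∑ i, ∑ j, if G.Adj i j then ‖q i - q j‖ ^ 2 else 0) / 2

omit [DecidableEq V] in
/-- Keeping a set of edges, each with one orientation. -/
lemma edge_sum_le (G : SimpleGraph V) [DecidableRel G.Adj] (R : V → V → Prop) [DecidableRel R]
    (hR : ∀ i j, R i j → G.Adj i j) (hR2 : ∀ i j, R i j → ¬ R j i) (w : V → V → ℝ)
    (hw : ∀ i j, 0 ≤ w i j) (hs : ∀ i j, w i j = w j i) :
    ∑ i, ∑ j, (if R i j then w i j else 0) ≤ (∑ i, ∑ j, if G.Adj i j then w i j else 0) / 2 := by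
  have h1 : ∑ i, ∑ j, (if R i j then w i j else 0) = ∑ i, ∑ j, (if R j i then w i j else 0) := by
    rw [Finset.sum_comm]
    refine Finset.sum_congr rfl fun i _ => Finset.sum_congr rfl fun j _ => ?_
    by_cases h : R j i
    · rw [if_pos h, if_pos h, hs]
    · rw [if_neg h, if_neg h]
  have h2 : ∑ i, ∑ j, (if R i j then w i j else 0) + ∑ i, ∑ j, (if R j i then w i j else 0) ≤
      ∑ i, ∑ j, if G.Adj i j then w i j else 0 := by
    rw [← Finset.sum_add_distrib]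
    refine Finset.sum_le_sum fun i _ => ?_
    rw [← Finset.sum_add_distrib]
    refine Finset.sum_le_sum fun j _ => ?_
    by_cases h : R i j
    · rw [if_pos h, if_neg (hR2 i j h), if_pos (hR i j h)]
      simp
    · rw [if_neg h]
      by_cases h' : R j i
      · rw [if_pos h', if_pos (hR j i h').symm]
        simp
      · rw [if_neg h']
        split_ifs
        · simpa using hw i j
        · simp
  linarith

omit [DecidableEq V] in
lemma Tr_le (G : SimpleGraph V) [DecidableRel G.Adj] (q : V → F) (R : V → V → Prop)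
    [DecidableRel R] (hR : ∀ i j, R i j → G.Adj i j) (hR2 : ∀ i j, R i j → ¬ R j i) :
    Tr G q ≤ ∑ i, ‖q i‖ ^ 2 - ∑ i, ∑ j, (if R i j then ‖q i - q j‖ ^ 2 else 0) := by
  have h := edge_sum_le G R hR hR2 (fun i j => ‖q i - q j‖ ^ 2) (fun i j => by positivity)
    (fun i j => by rw [norm_sub_rev])
  unfold Tr
  linarith

lemma Bes.finset {q : V → F} (hq : Bes q) (s : Finset V) : ‖∑ i ∈ s, q i‖ ^ 2 ≤ s.card := by
  have h := hq (fun i => if i ∈ s then 1 else 0)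
  simpa using h

/-- The star bound. -/
lemma star_bound {q : V → F} (hq : Bes q) (c : V) (s : Finset V) (hc : c ∉ s) :
    ‖q c‖ ^ 2 + ∑ x ∈ s, (‖q x‖ ^ 2 - ‖q x - q c‖ ^ 2) ≤ 1 := by
  have h := hq.finset (insert c s)
  rw [Finset.sum_insert hc, Finset.card_insert_of_notMem hc] at h
  have h1 : ∑ x ∈ s, (‖q x‖ ^ 2 - ‖q x - q c‖ ^ 2) =
      2 * inner ℝ (q c) (∑ x ∈ s, q x) - s.card * ‖q c‖ ^ 2 := by
    rw [inner_sum, Finset.mul_sum]
    have : ∀ x ∈ s, (‖q x‖ ^ 2 - ‖q x - q c‖ ^ 2) = 2 * inner ℝ (q c) (q x) - ‖q c‖ ^ 2 := by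
      intro x _
      rw [@norm_sub_sq_real, real_inner_comm]
      ring
    rw [Finset.sum_congr rfl this, Finset.sum_sub_distrib, Finset.sum_const, nsmul_eq_mul]
  rw [h1]
  set S := ∑ x ∈ s, q x
  have hN : (0 : ℝ) < (s.card : ℝ) + 1 := by positivity
  have h2 : 0 ≤ ‖((s.card : ℝ) + 1) • q c - (q c + S)‖ ^ 2 := by positivity
  rw [@norm_sub_sq_real, norm_smul, inner_smul_left, inner_add_right, real_inner_self_eq_norm_sq]
    at h2
  simp only [Real.norm_eq_abs, abs_of_pos hN] at h2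
  push_cast at h
  have h3 : ((s.card : ℝ) + 1) * (‖q c‖ ^ 2 + (2 * inner ℝ (q c) S - s.card * ‖q c‖ ^ 2)) ≤
      (s.card : ℝ) + 1 := by
    have e : (starRingEnd ℝ) ((s.card : ℝ) + 1) = (s.card : ℝ) + 1 := rfl
    rw [e] at h2
    nlinarith [h2, h]
  exact le_of_mul_le_mul_left (by linarith) hN

/-- Domination bound. -/
lemma dom_bound (G : SimpleGraph V) [DecidableRel G.Adj] {q : V → F} (hq : Bes q)
    (D : Finset V) (f : V → V) (hf : ∀ x, x ∉ D → f x ∈ D ∧ G.Adj x (f x)) :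
    Tr G q ≤ D.card := by
  classical
  have h := Tr_le G q (fun i j => i ∉ D ∧ j = f i)
    (by rintro i j ⟨h1, rfl⟩; exact (hf i h1).2)
    (by rintro i j ⟨h1, rfl⟩ ⟨h2, _⟩; exact h2 (hf i h1).1)
  refine h.trans ?_
  have h1 : ∀ i, ∑ j, (if i ∉ D ∧ j = f i then ‖q i - q j‖ ^ 2 else 0) =
      if i ∉ D then ‖q i - q (f i)‖ ^ 2 else 0 := by
    intro i
    by_cases hi : i ∈ D <;> simp [hi]
  simp_rw [h1]
  have h2 : ∑ i, ‖q i‖ ^ 2 - ∑ i, (if i ∉ D then ‖q i - q (f i)‖ ^ 2 else 0) =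
      ∑ i ∈ D, ‖q i‖ ^ 2 + ∑ i ∈ Dᶜ, (‖q i‖ ^ 2 - ‖q i - q (f i)‖ ^ 2) := by
    rw [Finset.sum_sub_distrib, ← Finset.sum_filter]
    have e : (univ.filter (fun i => i ∉ D)) = Dᶜ := by ext; simp
    rw [e, ← Finset.sum_add_sum_compl D (fun i => ‖q i‖ ^ 2)]
    ring
  rw [h2]
  have h3 : ∑ i ∈ Dᶜ, (‖q i‖ ^ 2 - ‖q i - q (f i)‖ ^ 2) =
      ∑ c ∈ D, ∑ i ∈ Dᶜ with f i = c, (‖q i‖ ^ 2 - ‖q i - q c‖ ^ 2) := by
    rw [← Finset.sum_fiberwise_of_maps_to (t := D) (g := f)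
      (fun i hi => (hf i (by simpa using hi)).1)]
    refine Finset.sum_congr rfl fun c _ => Finset.sum_congr rfl fun i hi => ?_
    rw [(Finset.mem_filter.1 hi).2]
  rw [h3, ← Finset.sum_add_distrib]
  have h4 : ∀ c ∈ D, ‖q c‖ ^ 2 + ∑ i ∈ Dᶜ with f i = c, (‖q i‖ ^ 2 - ‖q i - q c‖ ^ 2) ≤ 1 := by
    intro c hc
    apply star_bound hq
    simp [hc]
  calc _ ≤ ∑ c ∈ D, (1 : ℝ) := Finset.sum_le_sum h4
    _ = D.card := by simp

end Pool.Agent.LSp
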