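import Mathlib
import Pool.Agent.LSp.Basic

/-!
# Two bounds: the outside vertices and the two-dimensional Bessel argument
-/

set_option linter.unusedSectionVars false

namespace Pool.Agent.LSp

open Finset

variable {V : Type*} [Fintype V] [DecidableEq V]
variable {F : Type*} [NormedAddCommGroup F] [InnerProductSpace ℝ F]

/-- The saving of an outside vertex of degree `d`. -/
noncomputable def sv (d : ℕ) : ℝ := (d : ℝ) ^ 2 / ((d : ℝ) ^ 2 + d + 1)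

lemma sum_norm_sq_ge (s : Finset V) (f : V → F) :
    ‖∑ k ∈ s, f k‖ ^ 2 ≤ s.card * ∑ k ∈ s, ‖f k‖ ^ 2 := by
  have h1 : ‖∑ k ∈ s, f k‖ ≤ ∑ k ∈ s, ‖f k‖ := norm_sum_le _ _
  have h2 : (∑ k ∈ s, ‖f k‖) ^ 2 ≤ s.card * ∑ k ∈ s, ‖f k‖ ^ 2 := sq_sum_le_card_mul_sum_sq
  have h3 : 0 ≤ ‖∑ k ∈ s, f k‖ := norm_nonneg _
  nlinarith

/-- (III) -/
lemma out_bound {q : V → F} (hq : Bes q) (o : V) (s : Finset V) (ho : o ∉ s) :
    ‖q o‖ ^ 2 - ∑ k ∈ s, ‖q o - q k‖ ^ 2 ≤ 1 - sv s.card := by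
  have h := hq.finset (insert o s)
  rw [Finset.sum_insert ho, Finset.card_insert_of_notMem ho] at h
  push_cast at h
  unfold sv
  rcases s.eq_empty_or_nonempty with rfl | hs
  · simp at h ⊢
    nlinarith [norm_nonneg (q o)]
  have hd : (1 : ℝ) ≤ (s.card : ℝ) := by exact_mod_cast hs.card_pos
  set d : ℝ := (s.card : ℝ) with hdef
  have h1 := sum_norm_sq_ge s (fun k => q o - q k)
  rw [Finset.sum_sub_distrib, Finset.sum_const, ← Nat.cast_smul_eq_nsmul ℝ, ← hdef] at h1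
  set T := ∑ k ∈ s, ‖q o - q k‖ ^ 2 with hT
  set R := ∑ k ∈ s, q k
  rw [@norm_sub_sq_real, norm_smul, inner_smul_left] at h1
  rw [@norm_add_sq_real] at h
  simp only [Real.norm_eq_abs, abs_of_nonneg (by linarith : (0 : ℝ) ≤ d)] at h1
  have e : (starRingEnd ℝ) d = d := rfl
  rw [e] at h1
  have h2 : 0 ≤ ‖(d ^ 2) • q o - (d + 1) • R‖ ^ 2 := by positivity
  rw [@norm_sub_sq_real, norm_smul, norm_smul, inner_smul_left, inner_smul_right] at h2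
  simp only [Real.norm_eq_abs, abs_of_nonneg (by positivity : (0 : ℝ) ≤ d ^ 2),
    abs_of_nonneg (by linarith : (0 : ℝ) ≤ d + 1)] at h2
  have e2 : (starRingEnd ℝ) (d ^ 2) = d ^ 2 := rfl
  rw [e2] at h2
  set A := ‖q o‖
  set B := ‖R‖
  set I : ℝ := inner ℝ (q o) R
  have hD : (0 : ℝ) < d ^ 2 + d + 1 := by positivity
  have h3 : (A ^ 2 - T) * (d ^ 2 + d + 1) ≤ d + 1 := by
    have hk : d * ((A ^ 2 - T) * (d ^ 2 + d + 1)) ≤ d * (d + 1) := by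
      have ha : d * (A ^ 2 - T) * (d ^ 2 + d + 1) ≤
          (d * A ^ 2 - (d ^ 2 * A ^ 2 - 2 * d * I + B ^ 2)) * (d ^ 2 + d + 1) := by
        apply mul_le_mul_of_nonneg_right _ hD.le
        nlinarith [h1]
      have hb : (d * A ^ 2 - (d ^ 2 * A ^ 2 - 2 * d * I + B ^ 2)) * (d ^ 2 + d + 1) ≤
          d * (A ^ 2 + 2 * I + B ^ 2) := by
        nlinarith [h2]
      have hc : d * (A ^ 2 + 2 * I + B ^ 2) ≤ d * (d + 1) := by
        apply mul_le_mul_of_nonneg_left _ (by linarith)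
        linarith
      linarith
    exact le_of_mul_le_mul_left hk (by linarith)
  have h4 : A ^ 2 - T ≤ (d + 1) / (d ^ 2 + d + 1) := by
    rw [le_div_iff₀ hD]; exact h3
  have h5 : 1 - d ^ 2 / (d ^ 2 + d + 1) = (d + 1) / (d ^ 2 + d + 1) := by
    field_simp
    ring
  rw [h5]
  exact h4

/-- (II) -/
lemma two_dim (X w : F) (Gn κ E : ℝ) (hB : ∀ s r : ℝ, ‖s • X + r • w‖ ^ 2 ≤ s ^ 2 * Gn + 2 * r ^ 2)
    (hκ : 0 ≤ κ) (hE : 0 ≤ E) (hG : Gn ≤ E ^ 2 / 2 + E * κ) :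
    2 * inner ℝ w X - κ * ‖w‖ ^ 2 ≤ E := by
  have hB' : ∀ s r : ℝ, 0 ≤ s ^ 2 * (Gn - ‖X‖ ^ 2) - 2 * s * r * inner ℝ w X
      + r ^ 2 * (2 - ‖w‖ ^ 2) := by
    intro s r
    have h := hB s r
    rw [@norm_add_sq_real, norm_smul, norm_smul, inner_smul_left, inner_smul_right] at h
    have e : (starRingEnd ℝ) s = s := rfl
    rw [e, mul_pow, mul_pow, real_inner_comm, Real.norm_eq_abs, Real.norm_eq_abs, sq_abs, sq_abs] at h
    nlinarith [h]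
  set P : ℝ := inner ℝ w X with hP
  set ρ := ‖w‖ ^ 2 with hρ
  have hρ0 : 0 ≤ ρ := by positivity
  have hX0 : 0 ≤ ‖X‖ ^ 2 := by positivity
  have hρ2 : ρ ≤ 2 := by
    have := hB' 0 1
    linarith
  have hGX : 0 ≤ Gn - ‖X‖ ^ 2 := by
    have := hB' 1 0
    linarith
  have h1 : P ^ 2 ≤ (Gn - ‖X‖ ^ 2) * (2 - ρ) := by
    have hd := discrim_le_zero (a := Gn - ‖X‖ ^ 2) (b := -2 * P) (c := 2 - ρ) (by
      intro s
      have := hB' s 1
      nlinarith [this])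
    unfold discrim at hd
    nlinarith
  have h2 : P ^ 2 ≤ ‖X‖ ^ 2 * ρ := by
    have h := abs_real_inner_le_norm w X
    rw [← hP] at h
    have h' : P ^ 2 ≤ (‖w‖ * ‖X‖) ^ 2 := by
      rw [← sq_abs P]
      exact pow_le_pow_left₀ (abs_nonneg _) h 2
    rw [hρ]
    nlinarith
  have h3 : 2 * P ^ 2 ≤ Gn * ρ * (2 - ρ) := by
    have ha : (2 - ρ) * P ^ 2 ≤ (2 - ρ) * (‖X‖ ^ 2 * ρ) :=
      mul_le_mul_of_nonneg_left h2 (by linarith)
    have hb : ρ * P ^ 2 ≤ ρ * ((Gn - ‖X‖ ^ 2) * (2 - ρ)) := mul_le_mul_of_nonneg_left h1 hρ0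
    nlinarith
  have h4 : (2 * P) ^ 2 ≤ (E + κ * ρ) ^ 2 := by
    have ha : Gn * (ρ * (2 - ρ)) ≤ (E ^ 2 / 2 + E * κ) * (ρ * (2 - ρ)) :=
      mul_le_mul_of_nonneg_right hG (mul_nonneg hρ0 (by linarith))
    nlinarith [sq_nonneg (E * (1 - ρ) - κ * ρ)]
  have h5 : 0 ≤ E + κ * ρ := by positivity
  have h6 : 2 * P ≤ E + κ * ρ := by
    have := abs_le_of_sq_le_sq h4 h5
    exact (abs_le.1 this).2
  linarith

end Pool.Agent.LSp
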