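import Mathlib
import Pool.Agent.LSp.Parts

/-!
# The real inequality (G)
-/

namespace Pool.Agent.LSp

/-- Facts about one outside vertex. -/
lemma sv_facts (d : ℕ) (N yo : ℝ) (hd : (d : ℝ) ≤ N - 4) (h : |yo| * (N - 1) ≤ d) :
    |yo| ≤ sv d ∧ yo ^ 2 ≤ sv d * ((N - 4) / N) := by
  have hd0 : (0 : ℝ) ≤ d := Nat.cast_nonneg d
  have hN : 4 ≤ N := by linarith
  unfold sv
  rcases Nat.eq_zero_or_pos d with rfl | hpos
  · have h0 : |yo| = 0 := by
      have h1 : |yo| * (N - 1) ≤ 0 := by simpa using h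
      have h2 := abs_nonneg yo
      by_contra hne
      have : 0 < |yo| := lt_of_le_of_ne h2 (Ne.symm hne)
      nlinarith
    have h1 : yo = 0 := abs_eq_zero.1 h0
    subst h1
    simp
  · have hd1 : (1 : ℝ) ≤ d := by exact_mod_cast hpos
    set x : ℝ := (d : ℝ)
    have hD : (0 : ℝ) < x ^ 2 + x + 1 := by positivity
    have hN1 : 0 < N - 1 := by linarith
    have hy : |yo| ≤ x / (N - 1) := by rw [le_div_iff₀ hN1]; exact h
    have hN0 : 0 < N := by linarith
    constructor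
    · refine hy.trans ?_
      rw [div_le_div_iff₀ hN1 hD]
      nlinarith [mul_nonneg (by linarith : (0:ℝ) ≤ x - 1) (by linarith : (0:ℝ) ≤ N - 4 - x)]
    · rw [← sq_abs]
      have h1 : |yo| ^ 2 ≤ (x / (N - 1)) ^ 2 := pow_le_pow_left₀ (abs_nonneg _) hy 2
      refine h1.trans ?_
      rw [div_pow, div_mul_div_comm, div_le_div_iff₀ (by positivity) (by positivity)]
      have h2 : (x ^ 2 + x + 1) * N ≤ (N - 4) * (N - 1) ^ 2 := by
        have h3 : x ^ 2 + x + 1 ≤ (N - 4) ^ 2 + (N - 4) + 1 := by nlinarith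
        have h4 : (x ^ 2 + x + 1) * N ≤ ((N - 4) ^ 2 + (N - 4) + 1) * N :=
          mul_le_mul_of_nonneg_right h3 hN0.le
        have h5 : 5 ≤ N := by linarith
        nlinarith
      calc x ^ 2 * ((x ^ 2 + x + 1) * N) ≤ x ^ 2 * ((N - 4) * (N - 1) ^ 2) :=
            mul_le_mul_of_nonneg_left h2 (by positivity)
        _ = x ^ 2 * (N - 4) * (N - 1) ^ 2 := by ring

lemma sv_nonneg (d : ℕ) : 0 ≤ sv d := by unfold sv; positivity

lemma sv_third {d : ℕ} (hd : 1 ≤ d) : 1 / 3 ≤ sv d := by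
  unfold sv
  have h : (1 : ℝ) ≤ d := by exact_mod_cast hd
  rw [div_le_div_iff₀ (by norm_num) (by positivity)]
  nlinarith

/-- (G) -/
lemma realG (N e t ea eb a' b' X ka s Y G2 Sy z : ℝ) (hea : 0 ≤ ea) (heb : 0 ≤ eb)
    (he : e = ea + eb) (he1 : e < 1) (hl1 : (N - e) * t = 1 + b' - eb)
    (hl2 : (N - e) * (1 - t) = 1 + a' - ea) (ha : 1 ≤ a') (hb : 1 ≤ b') (hab : a' + b' = N - 2)
    (hX : 0 ≤ X) (hka : ka = (a' * b' - 1) / N + X) (hz : z = (a' + 1) * t - (b' + 1) * (1 - t))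
    (hY : ea = e * t - Y) (hG2 : G2 ≤ ea ^ 2 + eb ^ 2)
    (hcase : (s = 0 ∧ Y = 0 ∧ Sy ≤ 0) ∨ (1 / 3 ≤ s ∧ |Y| ≤ s ∧ Sy ≤ s * ((N - 4) / N))) :
    G2 + Sy - 2 * (z / N) * (ea - eb) + z ^ 2 / N ≤ (e + s) ^ 2 / 2 + (e + s) * ka := by
  have hN4 : 4 ≤ N := by linarith
  have hN0 : 0 < N := by linarith
  have he0 : 0 ≤ e := by linarith
  set D := ea - eb with hD
  have hzD : z = D + Y := by
    have h1 : z = ea * t - eb * (1 - t) := by
      rw [hz]
      nlinarith [hl1, hl2]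
    rw [h1, hD]
    linear_combination -hY - t * he
  have hz2 : - 2 * (z / N) * D + z ^ 2 / N = (Y ^ 2 - D ^ 2) / N := by
    rw [hzD]; field_simp; ring
  have hG2' : G2 ≤ (e ^ 2 + D ^ 2) / 2 := by
    rw [he, hD]; nlinarith
  have hkaN : (N - 4) / N ≤ ka := by
    have h1 : (N - 4) / N ≤ (a' * b' - 1) / N := by
      apply div_le_div_of_nonneg_right _ hN0.le
      nlinarith [mul_nonneg (by linarith : (0:ℝ) ≤ a' - 1) (by linarith : (0:ℝ) ≤ b' - 1)]
    linarith
  have hN4N : 0 ≤ (N - 4) / N := div_nonneg (by linarith) hN0.le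
  have hgoal : (e ^ 2 + D ^ 2) / 2 + Sy + (Y ^ 2 - D ^ 2) / N ≤ (e + s) ^ 2 / 2 + (e + s) * ka := by
    have hsplit : (Y ^ 2 - D ^ 2) / N = Y ^ 2 / N - D ^ 2 / N := by ring
    rw [hsplit]
    rcases hcase with ⟨rfl, hY0, hSy⟩ | ⟨hs, hYs, hSy⟩
    · subst hY0
      -- `D = - e (1 - 2 t)` and `(1 - 2 t) (N - 2 e) = a' - b'`
      have hDe : D = - (e * (1 - 2 * t)) := by
        rw [hD]; linear_combination hY * 2 + he
      have hf : (1 - 2 * t) * (N - 2 * e) = a' - b' := by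
        linear_combination hl2 - hl1 - 2 * hY - he
      set f := 1 - 2 * t with hfdef
      have hM : 2 ≤ N - 2 := by linarith
      have hf2 : f ^ 2 * (N - 2) ^ 2 ≤ (a' - b') ^ 2 := by
        rw [← hf, mul_pow]
        apply mul_le_mul_of_nonneg_left _ (sq_nonneg _)
        apply pow_le_pow_left₀ (by linarith)
        linarith
      have hab2 : (a' - b') ^ 2 ≤ 2 * (N - 2) * (a' * b' - 1) := by
        have h1 : a' * b' ≥ (N - 2) - 1 := by
          nlinarith [mul_nonneg (by linarith : (0:ℝ) ≤ a' - 1) (by linarith : (0:ℝ) ≤ b' - 1)]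
        have h2 : (a' - b') ^ 2 = (N - 2) ^ 2 - 4 * (a' * b') := by rw [← hab]; ring
        rw [h2]
        nlinarith
      have hfin : f ^ 2 * (N - 2) ≤ 2 * (a' * b' - 1) := by
        have h1 : (N - 2) * (f ^ 2 * (N - 2)) ≤ (N - 2) * (2 * (a' * b' - 1)) := by nlinarith
        exact le_of_mul_le_mul_left h1 (by linarith)
      have hDD : D ^ 2 / 2 - D ^ 2 / N ≤ e * ((a' * b' - 1) / N) := by
        rw [hDe]
        have h1 : (-(e * f)) ^ 2 / 2 - (-(e * f)) ^ 2 / N = e ^ 2 * (f ^ 2 * (N - 2)) / (2 * N) := by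
          field_simp
        rw [h1]
        have h2 : e * ((a' * b' - 1) / N) = e * (2 * (a' * b' - 1)) / (2 * N) := by
          field_simp
        rw [h2]
        apply div_le_div_of_nonneg_right _ (by linarith)
        have h3 : e ^ 2 * (f ^ 2 * (N - 2)) ≤ e ^ 2 * (2 * (a' * b' - 1)) :=
          mul_le_mul_of_nonneg_left hfin (sq_nonneg _)
        have h4 : e ^ 2 * (2 * (a' * b' - 1)) ≤ e * (2 * (a' * b' - 1)) := by
          apply mul_le_mul_of_nonneg_right _ _
          · nlinarith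
          · have : 0 ≤ f ^ 2 * (N - 2) := mul_nonneg (sq_nonneg _) (by linarith)
            linarith
        linarith
      have hX' : 0 ≤ e * X := mul_nonneg he0 hX
      rw [hka]
      simp only [add_zero, ne_eq, OfNat.ofNat_ne_zero, not_false_eq_true, zero_pow, zero_div]
      nlinarith
    · have hY2 : Y ^ 2 / N ≤ s ^ 2 / 2 := by
        have h1 : Y ^ 2 ≤ s ^ 2 := by
          rw [← sq_abs Y]; exact pow_le_pow_left₀ (abs_nonneg _) hYs 2
        calc Y ^ 2 / N ≤ s ^ 2 / N := div_le_div_of_nonneg_right h1 hN0.le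
          _ ≤ s ^ 2 / 2 := div_le_div_of_nonneg_left (sq_nonneg _) (by norm_num) (by linarith)
      have hD2 : D ^ 2 ≤ e ^ 2 := by
        rw [hD, he]; nlinarith [mul_nonneg hea heb]
      have hDe : D ^ 2 / 2 - D ^ 2 / N ≤ e * (1 / 3 + (N - 4) / N) := by
        have h1 : D ^ 2 / 2 - D ^ 2 / N = D ^ 2 * ((N - 2) / (2 * N)) := by
          field_simp
        have h2 : 0 ≤ (N - 2) / (2 * N) := div_nonneg (by linarith) (by linarith)
        have h3 : (N - 2) / (2 * N) ≤ 1 / 3 + (N - 4) / N := by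
          rw [div_add_div _ _ (by norm_num) hN0.ne', div_le_div_iff₀ (by linarith) (by linarith)]
          nlinarith
        rw [h1]
        calc D ^ 2 * ((N - 2) / (2 * N)) ≤ e * ((N - 2) / (2 * N)) := by
              apply mul_le_mul_of_nonneg_right _ h2
              nlinarith
          _ ≤ e * (1 / 3 + (N - 4) / N) := mul_le_mul_of_nonneg_left h3 he0
      have h5 : s * ((N - 4) / N) ≤ s * ka := mul_le_mul_of_nonneg_left hkaN (by linarith)
      have h6 : e * (1 / 3 + (N - 4) / N) ≤ e * (s + ka) :=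
        mul_le_mul_of_nonneg_left (by linarith) he0
      nlinarith
  linarith

end Pool.Agent.LSp
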