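import Mathlib
import Pool.Agent.LSp.Parts

/-!
# The part of the trace functional around the extremal edge
-/

set_option linter.unusedSectionVars false

namespace Pool.Agent.LSp

open Finset

variable {V : Type*} [Fintype V] [DecidableEq V]
variable {F : Type*} [NormedAddCommGroup F] [InnerProductSpace ℝ F]

/-- One common neighbour. -/
lemma c_term (u v k : F) (g : ℝ) :
    ‖k‖ ^ 2 - ‖u - k‖ ^ 2 - ‖v - k‖ ^ 2 ≤
      2 * inner ℝ u ((1 - g) • k) + 2 * inner ℝ v (g • k) - (1 - g) * ‖u‖ ^ 2 - g * ‖v‖ ^ 2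
        - g * (1 - g) * ‖u - v‖ ^ 2 := by
  have h : 0 ≤ ‖(g • u + (1 - g) • v) - k‖ ^ 2 := by positivity
  rw [← real_inner_self_eq_norm_sq] at h ⊢
  simp only [← real_inner_self_eq_norm_sq]
  simp only [inner_sub_left, inner_sub_right, inner_add_left, inner_add_right,
    real_inner_smul_left, real_inner_smul_right] at h ⊢
  rw [real_inner_comm u k, real_inner_comm v k, real_inner_comm u v] at *
  nlinarith [h]

/-- (I) -/
lemma w_part (u v : F) (A B C : Finset V) (q : V → F) (al be ga : V → ℝ) (t : ℝ) (YO : F)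
    (hrel : (1 - t) • u - t • v + ∑ k ∈ A, (al k - t) • q k + ∑ k ∈ B, (1 - t - be k) • q k
      + ∑ k ∈ C, (ga k - t) • q k + YO = 0)
    (N a' b' X z κ : ℝ) (hN : N = A.card + B.card + C.card + 2)
    (ha : a' = A.card + C.card - ∑ k ∈ C, ga k) (hb : b' = B.card + ∑ k ∈ C, ga k)
    (hX : X = ∑ k ∈ C, ga k * (1 - ga k)) (hz : z = (a' + 1) * t - (b' + 1) * (1 - t))
    (hκ : κ = (a' * b' - 1) / N + X) :
    ‖u‖ ^ 2 + ‖v‖ ^ 2 - ‖u - v‖ ^ 2 + ∑ k ∈ A, (‖q k‖ ^ 2 - ‖u - q k‖ ^ 2)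
      + ∑ k ∈ B, (‖q k‖ ^ 2 - ‖v - q k‖ ^ 2)
      + ∑ k ∈ C, (‖q k‖ ^ 2 - ‖u - q k‖ ^ 2 - ‖v - q k‖ ^ 2) ≤
    ‖u + v + ∑ k ∈ A, q k + ∑ k ∈ B, q k + ∑ k ∈ C, q k‖ ^ 2 / N
      + 2 * inner ℝ (u - v) (∑ k ∈ A, al k • q k - ∑ k ∈ B, be k • q k + YO
        - (z / N) • (u + v + ∑ k ∈ A, q k + ∑ k ∈ B, q k + ∑ k ∈ C, q k)) - κ * ‖u - v‖ ^ 2 := by
  have hNpos : 0 < N := by rw [hN]; positivity
  have eA : ∑ k ∈ A, (‖q k‖ ^ 2 - ‖u - q k‖ ^ 2) =
      2 * inner ℝ u (∑ k ∈ A, q k) - A.card * ‖u‖ ^ 2 := by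
    rw [inner_sum, Finset.mul_sum, ← nsmul_eq_mul, ← Finset.sum_const, ← Finset.sum_sub_distrib]
    refine Finset.sum_congr rfl fun k _ => ?_
    rw [@norm_sub_sq_real]
    ring
  have eB : ∑ k ∈ B, (‖q k‖ ^ 2 - ‖v - q k‖ ^ 2) =
      2 * inner ℝ v (∑ k ∈ B, q k) - B.card * ‖v‖ ^ 2 := by
    rw [inner_sum, Finset.mul_sum, ← nsmul_eq_mul, ← Finset.sum_const, ← Finset.sum_sub_distrib]
    refine Finset.sum_congr rfl fun k _ => ?_
    rw [@norm_sub_sq_real]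
    ring
  have eC : ∑ k ∈ C, (‖q k‖ ^ 2 - ‖u - q k‖ ^ 2 - ‖v - q k‖ ^ 2) ≤
      2 * inner ℝ u (∑ k ∈ C, q k - ∑ k ∈ C, ga k • q k) + 2 * inner ℝ v (∑ k ∈ C, ga k • q k)
        - (C.card - ∑ k ∈ C, ga k) * ‖u‖ ^ 2 - (∑ k ∈ C, ga k) * ‖v‖ ^ 2 - X * ‖u - v‖ ^ 2 := by
    refine (Finset.sum_le_sum fun k _ => c_term u v (q k) (ga k)).trans (le_of_eq ?_)
    rw [Finset.sum_sub_distrib, Finset.sum_sub_distrib, Finset.sum_sub_distrib,
      Finset.sum_add_distrib, ← Finset.mul_sum, ← Finset.mul_sum, ← inner_sum, ← inner_sum,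
      ← Finset.sum_mul, ← Finset.sum_mul, ← Finset.sum_mul, hX]
    simp only [sub_smul, one_smul, Finset.sum_sub_distrib, Finset.sum_const, nsmul_eq_mul, mul_one]
  set SA := ∑ k ∈ A, q k with hSA
  set SB := ∑ k ∈ B, q k with hSB
  set SC := ∑ k ∈ C, q k with hSC
  set EA := ∑ k ∈ A, al k • q k with hEA
  set EB := ∑ k ∈ B, be k • q k with hEB
  set GC := ∑ k ∈ C, ga k • q k with hGC
  set S := u + v + SA + SB + SC with hS
  set Ga := ∑ k ∈ C, ga k with hGa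
  have r1 : ∑ k ∈ A, (al k - t) • q k = EA - t • SA := by
    rw [hEA, hSA, Finset.smul_sum, ← Finset.sum_sub_distrib]
    exact Finset.sum_congr rfl fun k _ => sub_smul _ _ _
  have r2 : ∑ k ∈ B, (1 - t - be k) • q k = (1 - t) • SB - EB := by
    rw [hEB, hSB, Finset.smul_sum, ← Finset.sum_sub_distrib]
    exact Finset.sum_congr rfl fun k _ => sub_smul _ _ _
  have r3 : ∑ k ∈ C, (ga k - t) • q k = GC - t • SC := by
    rw [hGC, hSC, Finset.smul_sum, ← Finset.sum_sub_distrib]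
    exact Finset.sum_congr rfl fun k _ => sub_smul _ _ _
  rw [r1, r2, r3] at hrel
  have hYO : YO = -((1 - t) • u - t • v + (EA - t • SA) + ((1 - t) • SB - EB) + (GC - t • SC)) := by
    rw [eq_neg_iff_add_eq_zero, add_comm]
    exact hrel
  have hsq : 0 ≤ ‖N • ((1 - t) • u + t • v) - S + z • (u - v)‖ ^ 2 := by positivity
  have hSu : inner ℝ u S = inner ℝ u u + inner ℝ u v + inner ℝ u SA + inner ℝ u SB + inner ℝ u SC := by
    rw [hS]; simp only [inner_add_right]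
  have hSv : inner ℝ v S = inner ℝ u v + inner ℝ v v + inner ℝ v SA + inner ℝ v SB + inner ℝ v SC := by
    rw [hS]; simp only [inner_add_right, real_inner_comm u v]
  rw [eA, eB]
  refine (add_le_add_right eC _).trans ?_
  have hκN : κ * N = a' * b' - 1 + X * N := by
    rw [hκ]; field_simp
  have key : N * (‖S‖ ^ 2 / N + 2 * inner ℝ (u - v) (EA - EB + YO - (z / N) • S)
      - κ * ‖u - v‖ ^ 2) - N * (‖u‖ ^ 2 + ‖v‖ ^ 2 - ‖u - v‖ ^ 2 +
      (2 * inner ℝ u SA - A.card * ‖u‖ ^ 2) + (2 * inner ℝ v SB - B.card * ‖v‖ ^ 2) +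
      (2 * inner ℝ u (SC - GC) + 2 * inner ℝ v GC
        - (C.card - Ga) * ‖u‖ ^ 2 - Ga * ‖v‖ ^ 2 - X * ‖u - v‖ ^ 2)) =
      ‖N • ((1 - t) • u + t • v) - S + z • (u - v)‖ ^ 2 := by
    have e1 : N * (‖S‖ ^ 2 / N + 2 * inner ℝ (u - v) (EA - EB + YO - (z / N) • S)
      - κ * ‖u - v‖ ^ 2) = ‖S‖ ^ 2 + 2 * N * inner ℝ (u - v) (EA - EB + YO)
        - 2 * z * inner ℝ (u - v) S - (a' * b' - 1 + X * N) * ‖u - v‖ ^ 2 := by
      rw [← hκN, inner_sub_right (u - v) (EA - EB + YO), real_inner_smul_right]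
      field_simp
      ring
    rw [e1, hYO]
    simp only [← real_inner_self_eq_norm_sq]
    simp only [inner_sub_left, inner_sub_right, inner_add_left, inner_add_right, inner_neg_right,
      real_inner_smul_left, real_inner_smul_right]
    rw [real_inner_comm u S, real_inner_comm v S, hSu, hSv, real_inner_comm u v, hz, ha, hb, hN]
    ring
  have hfin := le_trans hsq key.ge
  have := le_of_mul_le_mul_left (sub_nonneg.1 hfin) hNpos
  linarith

end Pool.Agent.LSp
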