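import Mathlib
import Pool.Agent.LSp.WPart
import Pool.Agent.LSp.Reals

/-!
# Splitting the vertex set along an edge
-/

set_option linter.unusedSectionVars false

namespace Pool.Agent.LSp

open Finset

variable {V : Type*} [Fintype V] [DecidableEq V]
variable {F : Type*} [NormedAddCommGroup F] [InnerProductSpace ℝ F]

/-- Private neighbours of `u` with respect to the edge `uv`. -/
def pA (G : SimpleGraph V) [DecidableRel G.Adj] (u v : V) : Finset V :=
  univ.filter (fun k => G.Adj u k ∧ ¬ G.Adj v k ∧ k ≠ v)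

/-- Common neighbours. -/
def pC (G : SimpleGraph V) [DecidableRel G.Adj] (u v : V) : Finset V :=
  univ.filter (fun k => G.Adj u k ∧ G.Adj v k)

/-- The vertices adjacent to neither of `u`, `v`. -/
def pO (G : SimpleGraph V) [DecidableRel G.Adj] (u v : V) : Finset V :=
  univ.filter (fun k => ¬ G.Adj u k ∧ ¬ G.Adj v k)

variable (G : SimpleGraph V) [DecidableRel G.Adj] (u v : V)

lemma sum_split (huv : G.Adj u v) {M : Type*} [AddCommMonoid M] (f : V → M) :
    ∑ i, f i = f u + f v + ∑ k ∈ pA G u v, f k + ∑ k ∈ pA G v u, f k + ∑ k ∈ pC G u v, f k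
      + ∑ k ∈ pO G u v, f k := by
  have h1 : ∀ i, f i = (if i = u then f i else 0) + (if i = v then f i else 0) +
      (if i ∈ pA G u v then f i else 0) + (if i ∈ pA G v u then f i else 0) +
      (if i ∈ pC G u v then f i else 0) + (if i ∈ pO G u v then f i else 0) := by
    intro i
    have hne : u ≠ v := huv.ne
    simp only [pA, pC, pO, mem_filter, mem_univ, true_and]
    by_cases h1 : i = u
    · subst h1
      simp [hne, huv.symm]
    · by_cases h2 : i = v
      · subst h2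
        simp [huv, h1]
      · by_cases h3 : G.Adj u i <;> by_cases h4 : G.Adj v i <;> simp [h1, h2, h3, h4]
  calc ∑ i, f i = _ := Finset.sum_congr rfl fun i _ => h1 i
    _ = _ := by
      simp only [Finset.sum_add_distrib]
      simp only [Finset.sum_ite_eq', Finset.mem_univ, if_true, Finset.sum_ite_mem,
        Finset.univ_inter]

/-- Bessel inequality, split. -/
lemma bes_split (huv : G.Adj u v) {q : V → F} (hq : Bes q) (xu xv : ℝ) (xA xB xC xO : V → ℝ) :
    ‖xu • q u + xv • q v + ∑ k ∈ pA G u v, xA k • q k + ∑ k ∈ pA G v u, xB k • q k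
      + ∑ k ∈ pC G u v, xC k • q k + ∑ k ∈ pO G u v, xO k • q k‖ ^ 2 ≤
    xu ^ 2 + xv ^ 2 + ∑ k ∈ pA G u v, xA k ^ 2 + ∑ k ∈ pA G v u, xB k ^ 2
      + ∑ k ∈ pC G u v, xC k ^ 2 + ∑ k ∈ pO G u v, xO k ^ 2 := by
  set x : V → ℝ := fun i => if i = u then xu else if i = v then xv else
    if i ∈ pA G u v then xA i else if i ∈ pA G v u then xB i else
    if i ∈ pC G u v then xC i else xO i with hx
  have hne : u ≠ v := huv.ne
  have xu' : x u = xu := by simp [hx]
  have xv' : x v = xv := by simp [hx, hne.symm]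
  have xA' : ∀ k ∈ pA G u v, x k = xA k := by
    intro k hk
    have h := hk
    simp only [pA, mem_filter, mem_univ, true_and] at h
    have h1 : k ≠ u := fun e => by subst e; exact h.1.ne rfl
    simp [hx, h1, h.2.2, hk]
  have xB' : ∀ k ∈ pA G v u, x k = xB k := by
    intro k hk
    have h := hk
    simp only [pA, mem_filter, mem_univ, true_and] at h
    have h1 : k ≠ v := fun e => by subst e; exact h.1.ne rfl
    have h2 : k ∉ pA G u v := by
      simp only [pA, mem_filter, mem_univ, true_and]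
      exact fun h' => h.2.1 h'.1
    simp [hx, h1, h.2.2, hk, h2]
  have xC' : ∀ k ∈ pC G u v, x k = xC k := by
    intro k hk
    have h := hk
    simp only [pC, mem_filter, mem_univ, true_and] at h
    have h1 : k ≠ u := fun e => by subst e; exact h.1.ne rfl
    have h2 : k ≠ v := fun e => by subst e; exact h.2.ne rfl
    have h3 : k ∉ pA G u v := by
      simp only [pA, mem_filter, mem_univ, true_and]
      exact fun h' => h'.2.1 h.2
    have h4 : k ∉ pA G v u := by
      simp only [pA, mem_filter, mem_univ, true_and]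
      exact fun h' => h'.2.1 h.1
    simp [hx, h1, h2, h3, h4, hk]
  have xO' : ∀ k ∈ pO G u v, x k = xO k := by
    intro k hk
    have h := hk
    simp only [pO, mem_filter, mem_univ, true_and] at h
    have h1 : k ≠ u := fun e => by subst e; exact h.2 huv.symm
    have h2 : k ≠ v := fun e => by subst e; exact h.1 huv
    have h3 : k ∉ pA G u v := by
      simp only [pA, mem_filter, mem_univ, true_and]
      exact fun h' => h.1 h'.1
    have h4 : k ∉ pA G v u := by
      simp only [pA, mem_filter, mem_univ, true_and]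
      exact fun h' => h.2 h'.1
    have h5 : k ∉ pC G u v := by
      simp only [pC, mem_filter, mem_univ, true_and]
      exact fun h' => h.1 h'.1
    simp [hx, h1, h2, h3, h4, h5]
  have h := hq x
  rw [sum_split G u v huv (fun i => x i • q i), sum_split G u v huv (fun i => x i ^ 2)] at h
  simp only [xu', xv'] at h
  rw [Finset.sum_congr rfl (fun k hk => by rw [xA' k hk] : ∀ k ∈ pA G u v, x k • q k = xA k • q k),
    Finset.sum_congr rfl (fun k hk => by rw [xB' k hk] : ∀ k ∈ pA G v u, x k • q k = xB k • q k),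
    Finset.sum_congr rfl (fun k hk => by rw [xC' k hk] : ∀ k ∈ pC G u v, x k • q k = xC k • q k),
    Finset.sum_congr rfl (fun k hk => by rw [xO' k hk] : ∀ k ∈ pO G u v, x k • q k = xO k • q k),
    Finset.sum_congr rfl (fun k hk => by rw [xA' k hk] : ∀ k ∈ pA G u v, x k ^ 2 = xA k ^ 2),
    Finset.sum_congr rfl (fun k hk => by rw [xB' k hk] : ∀ k ∈ pA G v u, x k ^ 2 = xB k ^ 2),
    Finset.sum_congr rfl (fun k hk => by rw [xC' k hk] : ∀ k ∈ pC G u v, x k ^ 2 = xC k ^ 2),
    Finset.sum_congr rfl (fun k hk => by rw [xO' k hk] : ∀ k ∈ pO G u v, x k ^ 2 = xO k ^ 2)] at h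
  exact h

/-- The trace functional, bounded by the edges at `u`, `v` and at the outside vertices. -/
lemma Tr_split (huv : G.Adj u v) (q : V → F)
    (hO : ∀ o ∈ pO G u v, ∀ o' ∈ pO G u v, ¬ G.Adj o o') :
    Tr G q ≤ (‖q u‖ ^ 2 + ‖q v‖ ^ 2 - ‖q u - q v‖ ^ 2
      + ∑ k ∈ pA G u v, (‖q k‖ ^ 2 - ‖q u - q k‖ ^ 2)
      + ∑ k ∈ pA G v u, (‖q k‖ ^ 2 - ‖q v - q k‖ ^ 2)
      + ∑ k ∈ pC G u v, (‖q k‖ ^ 2 - ‖q u - q k‖ ^ 2 - ‖q v - q k‖ ^ 2))
      + ∑ o ∈ pO G u v, (‖q o‖ ^ 2 - ∑ k ∈ univ.filter (fun k => G.Adj o k), ‖q o - q k‖ ^ 2) := by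
  have hne : u ≠ v := huv.ne
  have huO : u ∉ pO G u v := by
    simp only [pO, mem_filter, mem_univ, true_and]; exact fun h => h.2 huv.symm
  have hvO : v ∉ pO G u v := by
    simp only [pO, mem_filter, mem_univ, true_and]; exact fun h => h.1 huv
  set R : V → V → Prop := fun i j =>
    (i = u ∧ G.Adj u j) ∨ (i = v ∧ G.Adj v j ∧ j ≠ u) ∨ (i ∈ pO G u v ∧ G.Adj i j) with hR
  have : DecidableRel R := fun i j => by rw [hR]; infer_instance
  have hadjO : ∀ o ∈ pO G u v, ¬ G.Adj u o ∧ ¬ G.Adj v o := by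
    intro o ho
    simpa only [pO, mem_filter, mem_univ, true_and] using ho
  have h := Tr_le G q R
    (by
      rintro i j (⟨rfl, h⟩ | ⟨rfl, h, _⟩ | ⟨_, h⟩) <;> exact h)
    (by
      rintro i j (⟨rfl, h⟩ | ⟨rfl, h, hj⟩ | ⟨hi, h⟩)
      · rintro (⟨rfl, h'⟩ | ⟨_, _, h'⟩ | ⟨h', _⟩)
        · exact h.ne rfl
        · exact h' rfl
        · exact (hadjO j h').1 h
      · rintro (⟨rfl, h'⟩ | ⟨rfl, _, h'⟩ | ⟨h', _⟩)
        · exact hj rfl
        · exact h.ne rfl
        · exact (hadjO j h').2 h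
      · rintro (⟨rfl, h'⟩ | ⟨rfl, h', _⟩ | ⟨h', _⟩)
        · exact (hadjO i hi).1 h'
        · exact (hadjO i hi).2 h'
        · exact hO i hi j h' h)
  refine h.trans (le_of_eq ?_)
  rw [sum_split G u v huv (fun i => ‖q i‖ ^ 2),
    sum_split G u v huv (fun i => ∑ j, (if R i j then ‖q i - q j‖ ^ 2 else 0))]
  have eu : ∑ j, (if R u j then ‖q u - q j‖ ^ 2 else 0) =
      ‖q u - q v‖ ^ 2 + ∑ k ∈ pA G u v, ‖q u - q k‖ ^ 2 + ∑ k ∈ pC G u v, ‖q u - q k‖ ^ 2 := by
    have e1 : ∀ j, (if R u j then ‖q u - q j‖ ^ 2 else 0) =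
        if G.Adj u j then ‖q u - q j‖ ^ 2 else 0 := by
      intro j
      congr 1
      simp only [hR, true_and, hne, false_and, huO, or_false]
    simp_rw [e1]
    rw [sum_split G u v huv (fun j => if G.Adj u j then ‖q u - q j‖ ^ 2 else 0)]
    have a1 : ∑ k ∈ pA G u v, (if G.Adj u k then ‖q u - q k‖ ^ 2 else 0) =
        ∑ k ∈ pA G u v, ‖q u - q k‖ ^ 2 := Finset.sum_congr rfl fun k hk => by
      simp only [pA, mem_filter, mem_univ, true_and] at hk
      rw [if_pos hk.1]
    have a2 : ∑ k ∈ pA G v u, (if G.Adj u k then ‖q u - q k‖ ^ 2 else 0) = 0 :=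
      Finset.sum_eq_zero fun k hk => by
        simp only [pA, mem_filter, mem_univ, true_and] at hk
        rw [if_neg hk.2.1]
    have a3 : ∑ k ∈ pC G u v, (if G.Adj u k then ‖q u - q k‖ ^ 2 else 0) =
        ∑ k ∈ pC G u v, ‖q u - q k‖ ^ 2 := Finset.sum_congr rfl fun k hk => by
      simp only [pC, mem_filter, mem_univ, true_and] at hk
      rw [if_pos hk.1]
    have a4 : ∑ k ∈ pO G u v, (if G.Adj u k then ‖q u - q k‖ ^ 2 else 0) = 0 :=
      Finset.sum_eq_zero fun k hk => by rw [if_neg (hadjO k hk).1]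
    rw [a1, a2, a3, a4]
    simp [huv]
  have ev : ∑ j, (if R v j then ‖q v - q j‖ ^ 2 else 0) =
      ∑ k ∈ pA G v u, ‖q v - q k‖ ^ 2 + ∑ k ∈ pC G u v, ‖q v - q k‖ ^ 2 := by
    have e1 : ∀ j, (if R v j then ‖q v - q j‖ ^ 2 else 0) =
        if (G.Adj v j ∧ j ≠ u) then ‖q v - q j‖ ^ 2 else 0 := by
      intro j
      congr 1
      simp only [hR, true_and, hne.symm, false_and, hvO, or_false, false_or]
    simp_rw [e1]
    rw [sum_split G u v huv (fun j => if (G.Adj v j ∧ j ≠ u) then ‖q v - q j‖ ^ 2 else 0)]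
    have a1 : ∑ k ∈ pA G u v, (if (G.Adj v k ∧ k ≠ u) then ‖q v - q k‖ ^ 2 else 0) = 0 :=
      Finset.sum_eq_zero fun k hk => by
        simp only [pA, mem_filter, mem_univ, true_and] at hk
        rw [if_neg (fun h => hk.2.1 h.1)]
    have a2 : ∑ k ∈ pA G v u, (if (G.Adj v k ∧ k ≠ u) then ‖q v - q k‖ ^ 2 else 0) =
        ∑ k ∈ pA G v u, ‖q v - q k‖ ^ 2 := Finset.sum_congr rfl fun k hk => by
      simp only [pA, mem_filter, mem_univ, true_and] at hk
      rw [if_pos ⟨hk.1, hk.2.2⟩]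
    have a3 : ∑ k ∈ pC G u v, (if (G.Adj v k ∧ k ≠ u) then ‖q v - q k‖ ^ 2 else 0) =
        ∑ k ∈ pC G u v, ‖q v - q k‖ ^ 2 := Finset.sum_congr rfl fun k hk => by
      simp only [pC, mem_filter, mem_univ, true_and] at hk
      rw [if_pos ⟨hk.2, fun e => by subst e; exact hk.1.ne rfl⟩]
    have a4 : ∑ k ∈ pO G u v, (if (G.Adj v k ∧ k ≠ u) then ‖q v - q k‖ ^ 2 else 0) = 0 :=
      Finset.sum_eq_zero fun k hk => by rw [if_neg (fun h => (hadjO k hk).2 h.1)]
    rw [a1, a2, a3, a4]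
    simp
  have eA : ∑ i ∈ pA G u v, ∑ j, (if R i j then ‖q i - q j‖ ^ 2 else 0) = 0 := by
    refine Finset.sum_eq_zero fun i hi => Finset.sum_eq_zero fun j _ => if_neg ?_
    simp only [pA, mem_filter, mem_univ, true_and] at hi
    rintro (⟨rfl, h⟩ | ⟨rfl, _⟩ | ⟨h, _⟩)
    · exact hi.1.ne rfl
    · exact hi.2.2 rfl
    · exact (hadjO i h).1 hi.1
  have eB : ∑ i ∈ pA G v u, ∑ j, (if R i j then ‖q i - q j‖ ^ 2 else 0) = 0 := by
    refine Finset.sum_eq_zero fun i hi => Finset.sum_eq_zero fun j _ => if_neg ?_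
    simp only [pA, mem_filter, mem_univ, true_and] at hi
    rintro (⟨rfl, h⟩ | ⟨rfl, _⟩ | ⟨h, _⟩)
    · exact hi.2.2 rfl
    · exact hi.1.ne rfl
    · exact (hadjO i h).2 hi.1
  have eC : ∑ i ∈ pC G u v, ∑ j, (if R i j then ‖q i - q j‖ ^ 2 else 0) = 0 := by
    refine Finset.sum_eq_zero fun i hi => Finset.sum_eq_zero fun j _ => if_neg ?_
    simp only [pC, mem_filter, mem_univ, true_and] at hi
    rintro (⟨rfl, h⟩ | ⟨rfl, _⟩ | ⟨h, _⟩)
    · exact hi.1.ne rfl
    · exact hi.2.ne rfl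
    · exact (hadjO i h).1 hi.1
  have eO : ∑ i ∈ pO G u v, ∑ j, (if R i j then ‖q i - q j‖ ^ 2 else 0) =
      ∑ o ∈ pO G u v, ∑ k ∈ univ.filter (fun k => G.Adj o k), ‖q o - q k‖ ^ 2 := by
    refine Finset.sum_congr rfl fun i hi => ?_
    rw [Finset.sum_filter]
    refine Finset.sum_congr rfl fun j _ => ?_
    have h1 : i ≠ u := fun e => by subst e; exact huO hi
    have h2 : i ≠ v := fun e => by subst e; exact hvO hi
    congr 1
    simp only [hR, h1, h2, false_and, false_or, hi, true_and]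
  rw [eu, ev, eA, eB, eC, eO]
  simp only [Finset.sum_sub_distrib]
  ring

end Pool.Agent.LSp
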