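import Mathlib
import Pool.Agent.LSp.Split

/-!
# The hard case
-/

set_option linter.unusedSectionVars false

namespace Pool.Agent.LSp

open Finset

variable {V : Type*} [Fintype V] [DecidableEq V]
variable {F : Type*} [NormedAddCommGroup F] [InnerProductSpace ℝ F]
variable (G : SimpleGraph V) [DecidableRel G.Adj] (u v : V)

/-- The row of `u`. -/
lemma row (huv : G.Adj u v) (y : V → ℝ) :
    ∑ j, (if G.Adj u j then y u - y j else 0) =
      (y u - y v) + ∑ k ∈ pA G u v, (y u - y k) + ∑ k ∈ pC G u v, (y u - y k) := by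
  rw [sum_split G u v huv]
  have a1 : ∑ k ∈ pA G u v, (if G.Adj u k then y u - y k else 0) =
      ∑ k ∈ pA G u v, (y u - y k) := Finset.sum_congr rfl fun k hk => by
    simp only [pA, mem_filter, mem_univ, true_and] at hk
    rw [if_pos hk.1]
  have a2 : ∑ k ∈ pA G v u, (if G.Adj u k then y u - y k else 0) = 0 :=
    Finset.sum_eq_zero fun k hk => by
      simp only [pA, mem_filter, mem_univ, true_and] at hk
      rw [if_neg hk.2.1]
  have a3 : ∑ k ∈ pC G u v, (if G.Adj u k then y u - y k else 0) =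
      ∑ k ∈ pC G u v, (y u - y k) := Finset.sum_congr rfl fun k hk => by
    simp only [pC, mem_filter, mem_univ, true_and] at hk
    rw [if_pos hk.1]
  have a4 : ∑ k ∈ pO G u v, (if G.Adj u k then y u - y k else 0) = 0 :=
    Finset.sum_eq_zero fun k hk => by
      simp only [pO, mem_filter, mem_univ, true_and] at hk
      rw [if_neg hk.1]
  rw [a1, a2, a3, a4]
  simp [huv]

lemma pC_comm : pC G v u = pC G u v := by
  ext k
  simp only [pC, mem_filter, mem_univ, true_and]
  exact and_comm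

lemma pO_comm : pO G v u = pO G u v := by
  ext k
  simp only [pO, mem_filter, mem_univ, true_and]
  exact and_comm

/-- The number of vertices. -/
lemma card_split (huv : G.Adj u v) : Fintype.card V =
    2 + (pA G u v).card + (pA G v u).card + (pC G u v).card + (pO G u v).card := by
  have h := sum_split G u v huv (fun _ => 1)
  simp only [Finset.sum_const, smul_eq_mul, mul_one] at h
  rw [← Finset.card_univ, h]

/-- The hard case. -/
lemma core (huv : G.Adj u v) {q : V → F} (hq : Bes q) (y : V → ℝ) (l : ℝ)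
    (hy : ∀ i, ∑ j, (if G.Adj i j then y i - y j else 0) = l * y i)
    (h1 : y u - y v = 1) (hmax : ∀ i j, G.Adj i j → |y i - y j| ≤ 1)
    (hsum : ∑ i, y i = 0) (hY : ∑ i, y i • q i = 0)
    (hl : ((pA G u v).card : ℝ) + (pA G v u).card + (pC G u v).card + 1 < l)
    (hO : ∀ o ∈ pO G u v, ∀ o' ∈ pO G u v, ¬ G.Adj o o')
    (hA : ∀ o ∈ pO G u v, ∃ k ∈ pA G u v, ¬ G.Adj o k)
    (hB : ∀ o ∈ pO G u v, ∃ k ∈ pA G v u, ¬ G.Adj o k)
    (hA0 : (pA G u v).Nonempty) (hB0 : (pA G v u).Nonempty) :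
    Tr G q ≤ Fintype.card V + 1 - l := by
  -- notation
  obtain ⟨t, ht⟩ : ∃ t, t = - y v := ⟨_, rfl⟩
  have hyv : y v = - t := by linarith
  have hyu : y u = 1 - t := by linarith
  obtain ⟨N, hN⟩ : ∃ N : ℝ, N = (pA G u v).card + (pA G v u).card + (pC G u v).card + 2 := ⟨_, rfl⟩
  set al : V → ℝ := fun k => y k - y v with hal
  set be : V → ℝ := fun k => y u - y k with hbe
  obtain ⟨ea, hea⟩ : ∃ ea, ea = ∑ k ∈ pA G u v, al k := ⟨_, rfl⟩
  obtain ⟨eb, heb⟩ : ∃ eb, eb = ∑ k ∈ pA G v u, be k := ⟨_, rfl⟩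
  obtain ⟨Y, hYdef⟩ : ∃ Y, Y = ∑ k ∈ pO G u v, y k := ⟨_, rfl⟩
  obtain ⟨X, hX⟩ : ∃ X, X = ∑ k ∈ pC G u v, al k * (1 - al k) := ⟨_, rfl⟩
  obtain ⟨a', ha'⟩ : ∃ a' : ℝ, a' = (pA G u v).card + (pC G u v).card - ∑ k ∈ pC G u v, al k :=
    ⟨_, rfl⟩
  obtain ⟨b', hb'⟩ : ∃ b' : ℝ, b' = (pA G v u).card + ∑ k ∈ pC G u v, al k := ⟨_, rfl⟩
  obtain ⟨z, hz⟩ : ∃ z, z = (a' + 1) * t - (b' + 1) * (1 - t) := ⟨_, rfl⟩
  obtain ⟨ka, hka⟩ : ∃ ka, ka = (a' * b' - 1) / N + X := ⟨_, rfl⟩
  -- signs
  have hal0 : ∀ k ∈ pA G u v, 0 ≤ al k := by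
    intro k hk
    simp only [pA, mem_filter, mem_univ, true_and] at hk
    have := (abs_le.1 (hmax u k hk.1)).2
    simp only [hal]; linarith
  have hbe0 : ∀ k ∈ pA G v u, 0 ≤ be k := by
    intro k hk
    simp only [pA, mem_filter, mem_univ, true_and] at hk
    have := (abs_le.1 (hmax v k hk.1)).1
    simp only [hbe]; linarith
  have hga0 : ∀ k ∈ pC G u v, 0 ≤ al k ∧ al k ≤ 1 := by
    intro k hk
    simp only [pC, mem_filter, mem_univ, true_and] at hk
    have h2 := (abs_le.1 (hmax u k hk.1)).2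
    have h3 := (abs_le.1 (hmax v k hk.2)).1
    simp only [hal]; constructor <;> linarith
  have hea0 : 0 ≤ ea := by rw [hea]; exact Finset.sum_nonneg hal0
  have heb0 : 0 ≤ eb := by rw [heb]; exact Finset.sum_nonneg hbe0
  have hX0 : 0 ≤ X := by
    rw [hX]; exact Finset.sum_nonneg fun k hk => mul_nonneg (hga0 k hk).1 (by linarith [(hga0 k hk).2])
  have hGa0 : 0 ≤ ∑ k ∈ pC G u v, al k := Finset.sum_nonneg fun k hk => (hga0 k hk).1
  have hGa1 : ∑ k ∈ pC G u v, al k ≤ (pC G u v).card := by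
    calc ∑ k ∈ pC G u v, al k ≤ ∑ k ∈ pC G u v, (1 : ℝ) := Finset.sum_le_sum fun k hk => (hga0 k hk).2
      _ = _ := by simp
  have hAc : (1 : ℝ) ≤ (pA G u v).card := by exact_mod_cast hA0.card_pos
  have hBc : (1 : ℝ) ≤ (pA G v u).card := by exact_mod_cast hB0.card_pos
  have ha1 : 1 ≤ a' := by rw [ha']; linarith
  have hb1 : 1 ≤ b' := by rw [hb']; linarith
  have hab : a' + b' = N - 2 := by rw [ha', hb', hN]; ring
  -- rows
  have hru : l * (1 - t) = 1 + a' - ea := by
    have h := hy u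
    rw [row G u v huv, h1, hyu] at h
    rw [← h, ha', hea]
    have e1 : ∑ k ∈ pA G u v, (1 - t - y k) = ((pA G u v).card : ℝ) - ∑ k ∈ pA G u v, al k := by
      simp only [hal, hyv, Finset.sum_sub_distrib, Finset.sum_const, nsmul_eq_mul]; ring
    have e2 : ∑ k ∈ pC G u v, (1 - t - y k) = ((pC G u v).card : ℝ) - ∑ k ∈ pC G u v, al k := by
      simp only [hal, hyv, Finset.sum_sub_distrib, Finset.sum_const, nsmul_eq_mul]; ring
    rw [e1, e2]; ring
  have hrv : l * t = 1 + b' - eb := by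
    have h := hy v
    rw [row G v u huv.symm, pC_comm, hyv] at h
    have e1 : ∑ k ∈ pA G v u, (-t - y k) = ∑ k ∈ pA G v u, be k - ((pA G v u).card : ℝ) := by
      simp only [hbe, hyu, Finset.sum_sub_distrib, Finset.sum_const, nsmul_eq_mul]; ring
    have e2 : ∑ k ∈ pC G u v, (-t - y k) = - ∑ k ∈ pC G u v, al k := by
      simp only [hal, hyv, Finset.sum_sub_distrib, Finset.sum_const, nsmul_eq_mul]; ring
    rw [e1, e2, hyu] at h
    rw [hb', heb]
    linarith
  obtain ⟨e, he⟩ : ∃ e, e = ea + eb := ⟨_, rfl⟩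
  have hlN : l = N - e := by
    have : l = l * (1 - t) + l * t := by ring
    rw [this, hru, hrv]; linarith
  have he1 : e < 1 := by linarith
  have he0 : 0 ≤ e := by linarith
  have hN4 : 4 ≤ N := by linarith
  have hN0 : 0 < N := by linarith
  -- sum zero
  have hYe : ea = e * t - Y := by
    have h := hsum
    rw [sum_split G u v huv] at h
    have e1 : ∑ k ∈ pA G u v, y k = ea - (pA G u v).card * t := by
      rw [hea]; simp only [hal, hyv, Finset.sum_sub_distrib, Finset.sum_const, nsmul_eq_mul]; ring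
    have e2 : ∑ k ∈ pA G v u, y k = (pA G v u).card * (1 - t) - eb := by
      rw [heb]; simp only [hbe, hyu, Finset.sum_sub_distrib, Finset.sum_const, nsmul_eq_mul]; ring
    have e3 : ∑ k ∈ pC G u v, y k = ∑ k ∈ pC G u v, al k - (pC G u v).card * t := by
      simp only [hal, hyv, Finset.sum_sub_distrib, Finset.sum_const, nsmul_eq_mul]; ring
    rw [e1, e2, e3, ← hYdef, hyu, hyv] at h
    have h2 : (N - e) * t = 1 + b' - eb := by rw [← hlN]; exact hrv
    rw [hb'] at h2
    rw [hN] at h2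
    linarith
  -- outside vertices
  set dg : V → Finset V := fun o => univ.filter (fun k => G.Adj o k) with hdg
  have hdeg : ∀ o ∈ pO G u v, ((dg o).card : ℝ) ≤ N - 4 := by
    intro o ho
    obtain ⟨k1, hk1, hk1'⟩ := hA o ho
    obtain ⟨k2, hk2, hk2'⟩ := hB o ho
    have hoo := ho
    simp only [pO, mem_filter, mem_univ, true_and] at hoo
    have hsub : dg o ⊆ ((pA G u v).erase k1 ∪ (pA G v u).erase k2) ∪ pC G u v := by
      intro k hk
      simp only [hdg, mem_filter, mem_univ, true_and] at hk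
      have hku : k ≠ u := fun e => by subst e; exact hoo.1 hk.symm
      have hkv : k ≠ v := fun e => by subst e; exact hoo.2 hk.symm
      have hk1e : k ≠ k1 := fun e => by subst e; exact hk1' hk
      have hk2e : k ≠ k2 := fun e => by subst e; exact hk2' hk
      have hkO : k ∉ pO G u v := fun hk3 => hO o ho k hk3 hk
      simp only [pO, mem_filter, mem_univ, true_and] at hkO
      simp only [mem_union, mem_erase, pA, pC, mem_filter, mem_univ, true_and]
      tauto
    have hc := Finset.card_le_card hsub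
    have hc2 := Finset.card_union_le ((pA G u v).erase k1 ∪ (pA G v u).erase k2) (pC G u v)
    have hc3 := Finset.card_union_le ((pA G u v).erase k1) ((pA G v u).erase k2)
    rw [Finset.card_erase_of_mem hk1, Finset.card_erase_of_mem hk2] at hc3
    have h5 := hA0.card_pos
    have h6 := hB0.card_pos
    have h7 : (dg o).card + 2 ≤ (pA G u v).card + (pA G v u).card + (pC G u v).card := by omega
    have h8 : (((dg o).card + 2 : ℕ) : ℝ) ≤
      (((pA G u v).card + (pA G v u).card + (pC G u v).card : ℕ) : ℝ) := by exact_mod_cast h7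
    push_cast at h8
    rw [hN]; linarith
  have hyo : ∀ o ∈ pO G u v, |y o| * (N - 1) ≤ (dg o).card := by
    intro o ho
    have h := hy o
    rw [← Finset.sum_filter] at h
    have h2 : |l * y o| ≤ (dg o).card := by
      rw [← h]
      refine (Finset.abs_sum_le_sum_abs _ _).trans ?_
      calc ∑ k ∈ dg o, |y o - y k| ≤ ∑ k ∈ dg o, (1 : ℝ) := Finset.sum_le_sum fun k hk => by
            simp only [hdg, mem_filter, mem_univ, true_and] at hk
            exact hmax o k hk
        _ = _ := by simp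
    rw [abs_mul, abs_of_pos (by linarith : 0 < l)] at h2
    nlinarith [abs_nonneg (y o)]
  have hsv : ∀ o ∈ pO G u v, |y o| ≤ sv (dg o).card ∧ y o ^ 2 ≤ sv (dg o).card * ((N - 4) / N) :=
    fun o ho => sv_facts _ N _ (hdeg o ho) (hyo o ho)
  obtain ⟨s, hs⟩ : ∃ s, s = ∑ o ∈ pO G u v, sv (dg o).card := ⟨_, rfl⟩
  have hs0 : 0 ≤ s := by rw [hs]; exact Finset.sum_nonneg fun o _ => sv_nonneg _
  have hYs : |Y| ≤ s := by
    rw [hYdef, hs]
    exact (Finset.abs_sum_le_sum_abs _ _).trans (Finset.sum_le_sum fun o ho => (hsv o ho).1)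
  obtain ⟨Sy, hSy⟩ : ∃ Sy, Sy = ∑ o ∈ pO G u v, y o ^ 2 := ⟨_, rfl⟩
  have hSys : Sy ≤ s * ((N - 4) / N) := by
    rw [hSy, hs, Finset.sum_mul]
    exact Finset.sum_le_sum fun o ho => (hsv o ho).2
  have hcase : (s = 0 ∧ Y = 0 ∧ Sy ≤ 0) ∨ (1 / 3 ≤ s ∧ |Y| ≤ s ∧ Sy ≤ s * ((N - 4) / N)) := by
    by_cases hall : ∀ o ∈ pO G u v, (dg o).card = 0
    · left
      have hs' : s = 0 := by
        rw [hs]
        refine Finset.sum_eq_zero fun o ho => ?_
        rw [hall o ho]; simp [sv]
      refine ⟨hs', ?_, ?_⟩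
      · rw [hs'] at hYs
        exact abs_eq_zero.1 (le_antisymm hYs (abs_nonneg _))
      · rw [hs'] at hSys; simpa using hSys
    · right
      push Not at hall
      obtain ⟨o, ho, hne⟩ := hall
      refine ⟨?_, hYs, hSys⟩
      calc (1 : ℝ) / 3 ≤ sv (dg o).card := sv_third (Nat.one_le_iff_ne_zero.2 hne)
        _ ≤ s := by
          rw [hs]
          exact Finset.single_le_sum (f := fun o => sv (dg o).card) (fun o _ => sv_nonneg _) ho
  -- the sum of squares
  obtain ⟨G2, hG2⟩ : ∃ G2, G2 = ∑ k ∈ pA G u v, al k ^ 2 + ∑ k ∈ pA G v u, be k ^ 2 := ⟨_, rfl⟩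
  have hG2' : G2 ≤ ea ^ 2 + eb ^ 2 := by
    rw [hG2, hea, heb]
    exact add_le_add (Finset.sum_sq_le_sq_sum_of_nonneg hal0) (Finset.sum_sq_le_sq_sum_of_nonneg hbe0)
  have hG := realG N e t ea eb a' b' X ka s Y G2 Sy z hea0 heb0 he he1 (by rw [← hlN]; exact hrv)
    (by rw [← hlN]; exact hru) ha1 hb1 hab hX0 hka hz hYe hG2' hcase
  have hka0 : 0 ≤ ka := by
    rw [hka]
    have : 0 ≤ (a' * b' - 1) / N := div_nonneg (by nlinarith) hN0.le
    linarith
  -- relation
  have hrel : (1 - t) • q u - t • q v + ∑ k ∈ pA G u v, (al k - t) • q k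
      + ∑ k ∈ pA G v u, (1 - t - be k) • q k + ∑ k ∈ pC G u v, (al k - t) • q k
      + ∑ k ∈ pO G u v, y k • q k = 0 := by
    have h := hY
    rw [sum_split G u v huv] at h
    rw [← h, hyu, hyv]
    have e1 : ∀ k, al k - t = y k := by intro k; simp only [hal, hyv]; ring
    have e2 : ∀ k, 1 - t - be k = y k := by intro k; simp only [hbe, hyu]; ring
    simp only [e1, e2, neg_smul]
    rw [sub_eq_add_neg]
  have hW := w_part (q u) (q v) (pA G u v) (pA G v u) (pC G u v) q al be al t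
    (∑ k ∈ pO G u v, y k • q k) hrel N a' b' X z ka hN ha' hb' hX hz hka
  set S : F := q u + q v + ∑ k ∈ pA G u v, q k + ∑ k ∈ pA G v u, q k + ∑ k ∈ pC G u v, q k with hS
  set Xg : F := ∑ k ∈ pA G u v, al k • q k - ∑ k ∈ pA G v u, be k • q k
    + ∑ k ∈ pO G u v, y k • q k - (z / N) • S with hXg
  -- first Bessel
  have hSN : ‖S‖ ^ 2 ≤ N := by
    have h := bes_split G u v huv hq 1 1 (fun _ => 1) (fun _ => 1) (fun _ => 1) (fun _ => 0)
    simp only [one_smul, zero_smul, Finset.sum_const_zero, add_zero] at h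
    rw [hS, hN]
    refine h.trans (le_of_eq ?_)
    simp
    ring
  have hSN' : ‖S‖ ^ 2 / N ≤ 1 := by rw [div_le_one hN0]; exact hSN
  -- second Bessel
  obtain ⟨Gn, hGn⟩ : ∃ Gn, Gn = G2 + Sy - 2 * (z / N) * (ea - eb) + z ^ 2 / N := ⟨_, rfl⟩
  have hBes : ∀ p r : ℝ, ‖p • Xg + r • (q u - q v)‖ ^ 2 ≤ p ^ 2 * Gn + 2 * r ^ 2 := by
    intro p r
    have h := bes_split G u v huv hq (r - p * (z / N)) (-r - p * (z / N))
      (fun k => p * (al k - z / N)) (fun k => p * (- be k - z / N)) (fun _ => p * (- (z / N)))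
      (fun k => p * y k)
    have e1 : p • Xg + r • (q u - q v) = (r - p * (z / N)) • q u + (-r - p * (z / N)) • q v
        + ∑ k ∈ pA G u v, (p * (al k - z / N)) • q k + ∑ k ∈ pA G v u, (p * (- be k - z / N)) • q k
        + ∑ k ∈ pC G u v, (p * (- (z / N))) • q k + ∑ k ∈ pO G u v, (p * y k) • q k := by
      have f1 : ∑ k ∈ pA G u v, (p * (al k - z / N)) • q k =
          p • ∑ k ∈ pA G u v, al k • q k - (p * (z / N)) • ∑ k ∈ pA G u v, q k := by
        rw [Finset.smul_sum, Finset.smul_sum, ← Finset.sum_sub_distrib]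
        refine Finset.sum_congr rfl fun k _ => ?_
        rw [smul_smul, ← sub_smul]; congr 1; ring
      have f2 : ∑ k ∈ pA G v u, (p * (- be k - z / N)) • q k =
          - (p • ∑ k ∈ pA G v u, be k • q k) - (p * (z / N)) • ∑ k ∈ pA G v u, q k := by
        rw [Finset.smul_sum, Finset.smul_sum, ← Finset.sum_neg_distrib, ← Finset.sum_sub_distrib]
        refine Finset.sum_congr rfl fun k _ => ?_
        rw [smul_smul, ← neg_smul, ← sub_smul]; congr 1; ring
      have f3 : ∑ k ∈ pC G u v, (p * (- (z / N))) • q k =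
          - ((p * (z / N)) • ∑ k ∈ pC G u v, q k) := by
        rw [Finset.smul_sum, ← Finset.sum_neg_distrib]
        refine Finset.sum_congr rfl fun k _ => ?_
        rw [← neg_smul]; congr 1; ring
      have f4 : ∑ k ∈ pO G u v, (p * y k) • q k = p • ∑ k ∈ pO G u v, y k • q k := by
        rw [Finset.smul_sum]
        exact Finset.sum_congr rfl fun k _ => by rw [smul_smul]
      rw [f1, f2, f3, f4, hXg, hS]
      module
    rw [e1]
    refine h.trans (le_of_eq ?_)
    have g1 : ∑ k ∈ pA G u v, (p * (al k - z / N)) ^ 2 = p ^ 2 * (∑ k ∈ pA G u v, al k ^ 2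
        - 2 * (z / N) * ea + (pA G u v).card * (z / N) ^ 2) := by
      have : ∀ k, (p * (al k - z / N)) ^ 2 = p ^ 2 * (al k ^ 2 - 2 * (z / N) * al k + (z / N) ^ 2) := by
        intro k; ring
      simp only [this]
      rw [← Finset.mul_sum, Finset.sum_add_distrib, Finset.sum_sub_distrib, ← Finset.mul_sum,
        Finset.sum_const, nsmul_eq_mul, hea]
    have g2 : ∑ k ∈ pA G v u, (p * (- be k - z / N)) ^ 2 = p ^ 2 * (∑ k ∈ pA G v u, be k ^ 2
        + 2 * (z / N) * eb + (pA G v u).card * (z / N) ^ 2) := by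
      have : ∀ k, (p * (- be k - z / N)) ^ 2 =
          p ^ 2 * (be k ^ 2 + 2 * (z / N) * be k + (z / N) ^ 2) := by
        intro k; ring
      simp only [this]
      rw [← Finset.mul_sum, Finset.sum_add_distrib, Finset.sum_add_distrib, ← Finset.mul_sum,
        Finset.sum_const, nsmul_eq_mul, heb]
    have g3 : ∑ k ∈ pC G u v, (p * (- (z / N))) ^ 2 = p ^ 2 * ((pC G u v).card * (z / N) ^ 2) := by
      rw [Finset.sum_const, nsmul_eq_mul]; ring
    have g4 : ∑ k ∈ pO G u v, (p * y k) ^ 2 = p ^ 2 * Sy := by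
      rw [hSy, Finset.mul_sum]
      exact Finset.sum_congr rfl fun k _ => by ring
    rw [g1, g2, g3, g4, hGn, hG2]
    have hzN : z ^ 2 / N = N * (z / N) ^ 2 := by field_simp
    rw [hzN, hN]
    ring
  have hII := two_dim Xg (q u - q v) Gn ka (e + s) hBes hka0 (by linarith) (by rw [hGn]; exact hG)
  -- the outside vertices
  have hIII : ∑ o ∈ pO G u v, (‖q o‖ ^ 2 - ∑ k ∈ univ.filter (fun k => G.Adj o k), ‖q o - q k‖ ^ 2) ≤
      (pO G u v).card - s := by
    calc _ ≤ ∑ o ∈ pO G u v, (1 - sv (dg o).card) := Finset.sum_le_sum fun o _ =>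
          out_bound hq o (univ.filter (fun k => G.Adj o k)) (by simp)
      _ = _ := by rw [Finset.sum_sub_distrib, hs]; simp
  have hT := Tr_split G u v huv q hO
  have hcard : (Fintype.card V : ℝ) = N + (pO G u v).card := by
    rw [card_split G u v huv, hN]; push_cast; ring
  rw [hcard]
  linarith

end Pool.Agent.LSp
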