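import Mathlib
import Pool.Agent.LSp.Core

/-!
# The analytic theorem
-/

set_option linter.unusedSectionVars false

namespace Pool.Agent.LSp

open Finset

variable {V : Type*} [Fintype V] [DecidableEq V]
variable {F : Type*} [NormedAddCommGroup F] [InnerProductSpace ℝ F]
variable (G : SimpleGraph V) [DecidableRel G.Adj] (u v : V)

lemma u_notMem_pO (huv : G.Adj u v) : u ∉ pO G u v := by
  simp only [pO, mem_filter, mem_univ, true_and]; exact fun h => h.2 huv.symm

lemma v_notMem_pO (huv : G.Adj u v) : v ∉ pO G u v := by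
  simp only [pO, mem_filter, mem_univ, true_and]; exact fun h => h.1 huv

lemma dom0 (huv : G.Adj u v) {q : V → F} (hq : Bes q) : Tr G q ≤ 2 + (pO G u v).card := by
  have h := dom_bound G hq (insert u (insert v (pO G u v)))
    (fun x => if G.Adj u x then u else v) (by
      intro x hx
      simp only [mem_insert, not_or] at hx
      obtain ⟨hxu, hxv, hxO⟩ := hx
      simp only [pO, mem_filter, mem_univ, true_and, not_and, not_not] at hxO
      by_cases h1 : G.Adj u x
      · simp [h1, h1.symm]
      · simp [h1, (hxO h1).symm])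
  refine h.trans ?_
  rw [Finset.card_insert_of_notMem, Finset.card_insert_of_notMem (v_notMem_pO G u v huv)]
  · push_cast; linarith
  · simp only [mem_insert, not_or]
    exact ⟨huv.ne, u_notMem_pO G u v huv⟩

lemma dom1 (huv : G.Adj u v) {q : V → F} (hq : Bes q)
    (h : ∀ k ∈ pA G u v, ∃ o ∈ pO G u v, G.Adj k o) : Tr G q ≤ 1 + (pO G u v).card := by
  classical
  have h := dom_bound G hq (insert v (pO G u v))
    (fun x => if hx : ∃ o ∈ pO G u v, G.Adj x o then hx.choose else v) (by
      intro x hx
      simp only [mem_insert, not_or] at hx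
      obtain ⟨hxv, hxO⟩ := hx
      by_cases h1 : ∃ o ∈ pO G u v, G.Adj x o
      · simp only [h1, dif_pos]
        exact ⟨mem_insert_of_mem h1.choose_spec.1, h1.choose_spec.2⟩
      · simp only [h1, dif_neg, not_false_eq_true]
        refine ⟨mem_insert_self _ _, ?_⟩
        simp only [pO, mem_filter, mem_univ, true_and, not_and, not_not] at hxO
        by_contra hcon
        have hcon' : ¬ G.Adj v x := fun e => hcon e.symm
        have hux : G.Adj u x := by
          by_contra h2
          exact hcon' (hxO h2)
        exact h1 (h x (by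
          simp only [pA, mem_filter, mem_univ, true_and]
          exact ⟨hux, hcon', hxv⟩)))
  refine h.trans ?_
  rw [Finset.card_insert_of_notMem (v_notMem_pO G u v huv)]
  push_cast; linarith

lemma dom2 (_huv : G.Adj u v) {q : V → F} (hq : Bes q) {o o' : V} (ho : o ∈ pO G u v)
    (ho' : o' ∈ pO G u v) (h : G.Adj o o') : Tr G q ≤ 1 + (pO G u v).card := by
  have h := dom_bound G hq (insert u (insert v ((pO G u v).erase o')))
    (fun x => if x = o' then o else if G.Adj u x then u else v) (by
      intro x hx
      simp only [mem_insert, mem_erase, not_or, not_and] at hx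
      obtain ⟨hxu, hxv, hxO⟩ := hx
      by_cases h0 : x = o'
      · subst h0
        simp only [if_true]
        refine ⟨?_, h.symm⟩
        simp only [mem_insert, mem_erase]
        exact Or.inr (Or.inr ⟨h.ne, ho⟩)
      · have hxO' := hxO h0
        simp only [pO, mem_filter, mem_univ, true_and, not_and, not_not] at hxO'
        simp only [h0, if_false]
        by_cases h1 : G.Adj u x
        · simp [h1, h1.symm]
        · simp [h1, (hxO' h1).symm])
  refine h.trans ?_
  have hpos : 0 < (pO G u v).card := Finset.card_pos.2 ⟨o, ho⟩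
  have hc : (insert u (insert v ((pO G u v).erase o'))).card ≤ 1 + (pO G u v).card := by
    refine (Finset.card_insert_le _ _).trans ?_
    have h2 := Finset.card_insert_le v ((pO G u v).erase o')
    rw [Finset.card_erase_of_mem ho'] at h2
    omega
  exact_mod_cast hc

/-- The normalised theorem. -/
lemma normalised (huv : G.Adj u v) {q : V → F} (hq : Bes q) (y : V → ℝ) (l : ℝ)
    (hy : ∀ i, ∑ j, (if G.Adj i j then y i - y j else 0) = l * y i)
    (h1 : y u - y v = 1) (hmax : ∀ i j, G.Adj i j → |y i - y j| ≤ 1)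
    (hsum : ∑ i, y i = 0) (hY : ∑ i, y i • q i = 0) :
    Tr G q ≤ Fintype.card V + 1 - l := by
  have hcard : (Fintype.card V : ℝ) = (pA G u v).card + (pA G v u).card + (pC G u v).card + 2
      + (pO G u v).card := by
    rw [card_split G u v huv]; push_cast; ring
  by_cases hl : ((pA G u v).card : ℝ) + (pA G v u).card + (pC G u v).card + 1 < l
  swap
  · have h := dom0 G u v huv hq
    rw [hcard]; linarith
  have hlN : l ≤ (pA G u v).card + (pA G v u).card + (pC G u v).card + 2 := by
    have hu := hy u
    have hv := hy v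
    rw [row G u v huv] at hu
    rw [row G v u huv.symm, pC_comm] at hv
    have e1 : ∑ k ∈ pA G u v, (y u - y k) ≤ (pA G u v).card := by
      calc _ ≤ ∑ k ∈ pA G u v, (1 : ℝ) := Finset.sum_le_sum fun k hk => by
            simp only [pA, mem_filter, mem_univ, true_and] at hk
            exact (abs_le.1 (hmax u k hk.1)).2
        _ = _ := by simp
    have e2 : - ∑ k ∈ pA G v u, (y v - y k) ≤ (pA G v u).card := by
      rw [← Finset.sum_neg_distrib]
      calc _ ≤ ∑ k ∈ pA G v u, (1 : ℝ) := Finset.sum_le_sum fun k hk => by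
            simp only [pA, mem_filter, mem_univ, true_and] at hk
            have := (abs_le.1 (hmax v k hk.1)).1
            linarith
        _ = _ := by simp
    have e3 : ∑ k ∈ pC G u v, (y u - y k) - ∑ k ∈ pC G u v, (y v - y k) = (pC G u v).card := by
      rw [← Finset.sum_sub_distrib]
      have : ∀ k ∈ pC G u v, (y u - y k) - (y v - y k) = 1 := fun k _ => by linarith
      rw [Finset.sum_congr rfl this]; simp
    have e4 : l = l * y u - l * y v := by rw [← mul_sub, h1, mul_one]
    rw [e4, ← hu, ← hv]
    linarith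
  by_cases hA : ∀ k ∈ pA G u v, ∃ o ∈ pO G u v, G.Adj k o
  · have h := dom1 G u v huv hq hA
    rw [hcard]; linarith
  by_cases hB : ∀ k ∈ pA G v u, ∃ o ∈ pO G v u, G.Adj k o
  · have h := dom1 G v u huv.symm hq hB
    rw [pO_comm] at h
    rw [hcard]; linarith
  by_cases hO : ∀ o ∈ pO G u v, ∀ o' ∈ pO G u v, ¬ G.Adj o o'
  swap
  · push Not at hO
    obtain ⟨o, ho, o', ho', hoo⟩ := hO
    have h := dom2 G u v huv hq ho ho' hoo
    rw [hcard]; linarith
  push Not at hA hB
  obtain ⟨k1, hk1, hk1'⟩ := hA
  obtain ⟨k2, hk2, hk2'⟩ := hB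
  rw [pO_comm] at hk2'
  exact core G u v huv hq y l hy h1 hmax hsum hY hl hO
    (fun o ho => ⟨k1, hk1, fun h => hk1' o ho h.symm⟩)
    (fun o ho => ⟨k2, hk2, fun h => hk2' o ho h.symm⟩) ⟨k1, hk1⟩ ⟨k2, hk2⟩

/-- The analytic theorem: `tr (Q (I - L)) + l ≤ n + 1` for every projection `Q` orthogonal to an
eigenvector of the nonzero eigenvalue `l`. -/
theorem analytic {q : V → F} (hq : Bes q) (y : V → ℝ) (l : ℝ)
    (hy : ∀ i, ∑ j, (if G.Adj i j then y i - y j else 0) = l * y i) (hl : l ≠ 0)
    (hy0 : y ≠ 0) (hY : ∑ i, y i • q i = 0) :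
    Tr G q ≤ Fintype.card V + 1 - l := by
  have hsum : ∑ i, y i = 0 := by
    have h : ∑ i, ∑ j, (if G.Adj i j then y i - y j else 0) = 0 := by
      have h1 : ∑ i, ∑ j, (if G.Adj i j then y i - y j else 0) =
          - ∑ i, ∑ j, (if G.Adj i j then y i - y j else 0) := by
        conv_lhs => rw [Finset.sum_comm]
        rw [← Finset.sum_neg_distrib]
        refine Finset.sum_congr rfl fun i _ => ?_
        rw [← Finset.sum_neg_distrib]
        refine Finset.sum_congr rfl fun j _ => ?_
        by_cases h : G.Adj i j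
        · rw [if_pos h, if_pos h.symm]; ring
        · rw [if_neg h, if_neg (fun h' => h h'.symm)]; simp
      linarith
    simp_rw [hy] at h
    rw [← Finset.mul_sum] at h
    exact (mul_eq_zero.1 h).resolve_left hl
  obtain ⟨i0, hi0⟩ := Function.ne_iff.1 hy0
  have hi0' : y i0 ≠ 0 := hi0
  have hex : ∃ j, G.Adj i0 j ∧ y i0 - y j ≠ 0 := by
    by_contra hcon
    push Not at hcon
    have h := hy i0
    have h0 : ∑ j, (if G.Adj i0 j then y i0 - y j else 0) = 0 :=
      Finset.sum_eq_zero fun j _ => by
        split_ifs with hj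
        · exact hcon j hj
        · rfl
    rw [h0] at h
    exact (mul_ne_zero hl hi0') h.symm
  obtain ⟨j0, hj0, hj0'⟩ := hex
  obtain ⟨p, hp, hpmax⟩ := (univ.filter (fun p : V × V => G.Adj p.1 p.2)).exists_max_image
    (fun p => y p.1 - y p.2) ⟨(i0, j0), by simpa using hj0⟩
  simp only [mem_filter, mem_univ, true_and] at hp hpmax
  set M := y p.1 - y p.2 with hM
  have hMabs : ∀ i j, G.Adj i j → |y i - y j| ≤ M := by
    intro i j hij
    rw [abs_le]
    have h1 := hpmax (i, j) hij
    have h2 := hpmax (j, i) hij.symm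
    simp only at h1 h2
    constructor <;> linarith
  have hMpos : 0 < M := by
    have h1 := hMabs i0 j0 hj0
    exact lt_of_lt_of_le (abs_pos.2 hj0') h1
  refine normalised G p.1 p.2 hp hq (fun i => y i / M) l ?_ ?_ ?_ ?_ ?_
  · intro i
    have h := hy i
    rw [← mul_div_assoc, ← h, Finset.sum_div]
    refine Finset.sum_congr rfl fun j _ => ?_
    split_ifs
    · rw [sub_div]
    · simp
  · rw [← sub_div, ← hM, div_self hMpos.ne']
  · intro i j hij
    rw [← sub_div, abs_div, abs_of_pos hMpos, div_le_one hMpos]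
    exact hMabs i j hij
  · rw [← Finset.sum_div, hsum, zero_div]
  · have : ∑ i, (y i / M) • q i = (1 / M) • ∑ i, y i • q i := by
      rw [Finset.smul_sum]
      refine Finset.sum_congr rfl fun i _ => ?_
      rw [smul_smul]; congr 1; ring
    rw [this, hY, smul_zero]

end Pool.Agent.LSp
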