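import Mathlib
import Pool.Agent.LSp.Analytic
import Pool.Agent.MP_8604ae_co.Final

/-!
# From the analytic theorem to the spectrum
-/

set_option linter.unusedSectionVars false

namespace Pool.Agent.LSp

open Finset

lemma exists_perm_of_map_eq {α β : Type*} [Fintype α] (f g : α → β)
    (h : (univ : Finset α).val.map f = (univ : Finset α).val.map g) :
    ∃ σ : Equiv.Perm α, ∀ i, f i = g (σ i) := by
  classical
  have hc : ∀ c : β, Fintype.card {a // f a = c} = Fintype.card {a // g a = c} := by
    intro c
    have h1 := congrArg (Multiset.count c) h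
    rw [Multiset.count_map, Multiset.count_map, ← Finset.filter_val, ← Finset.filter_val,
      Finset.card_val, Finset.card_val] at h1
    rw [Fintype.card_subtype, Fintype.card_subtype]
    simpa [eq_comm] using h1
  refine ⟨Equiv.ofFiberEquiv (f := f) (g := g) (fun c => Fintype.equivOfCardEq (hc c)), ?_⟩
  intro i
  exact (Equiv.ofFiberEquiv_map _ i).symm

/-- Orthonormal eigenvectors for a listing of the spectrum. -/
lemma exists_basis {n : ℕ} (G : SimpleGraph (Fin n)) [DecidableRel G.Adj] (x : Fin n → ℝ)
    (hx : (G.lapMatrix ℝ).charpoly.roots = (univ : Finset (Fin n)).val.map x) :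
    ∃ b : OrthonormalBasis (Fin n) ℝ (EuclideanSpace ℝ (Fin n)),
      ∀ j i, ∑ k, (if G.Adj i k then b j i - b j k else 0) = x j * b j i := by
  have hH : (G.lapMatrix ℝ).IsHermitian := G.isHermitian_lapMatrix ℝ
  have h1 : (univ : Finset (Fin n)).val.map x = (univ : Finset (Fin n)).val.map hH.eigenvalues := by
    rw [← hx, hH.roots_charpoly_eq_eigenvalues]
    rfl
  obtain ⟨σ, hσ⟩ := exists_perm_of_map_eq _ _ h1
  refine ⟨hH.eigenvectorBasis.reindex σ.symm, ?_⟩
  intro j i
  have h2 := congrFun (hH.mulVec_eigenvectorBasis (σ j)) i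
  rw [SimpleGraph.lapMatrix_mulVec_apply] at h2
  rw [OrthonormalBasis.reindex_apply, Equiv.symm_symm, hσ j]
  simp only [Pi.smul_apply, smul_eq_mul] at h2
  rw [← h2, ← Finset.sum_filter, Finset.sum_sub_distrib, Finset.sum_const, nsmul_eq_mul]
  congr 1
  · congr 1
    rw [← SimpleGraph.card_neighborFinset_eq_degree]
    congr 2
    ext k; simp
  · apply Finset.sum_congr _ (fun _ _ => rfl)
    ext k; simp

/-- The theorem for a listing of the spectrum: `x j0 + ∑_{j ∈ J} (1 - x j) ≤ n + 1`. -/
theorem spectral {n : ℕ} (G : SimpleGraph (Fin n)) [DecidableRel G.Adj] (x : Fin n → ℝ)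
    (hx : (G.lapMatrix ℝ).charpoly.roots = (univ : Finset (Fin n)).val.map x)
    (J : Finset (Fin n)) (j0 : Fin n) (hj0 : j0 ∉ J) (hne : x j0 ≠ 0) :
    x j0 + ∑ j ∈ J, (1 - x j) ≤ n + 1 := by
  obtain ⟨b, hb⟩ := exists_basis G x hx
  set q : Fin n → EuclideanSpace ℝ (Fin n) :=
    fun i => WithLp.toLp 2 (fun j => if j ∈ J then b j i else 0) with hq
  have hinner : ∀ (j : Fin n) (X : EuclideanSpace ℝ (Fin n)), inner ℝ (b j) X = ∑ i, X i * b j i := by
    intro j X
    rw [PiLp.inner_apply]
    exact Finset.sum_congr rfl fun i _ => by simp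
  have hcomb : ∀ (X : Fin n → ℝ) (j : Fin n), (∑ i, X i • q i) j =
      if j ∈ J then ∑ i, X i * b j i else 0 := by
    intro X j
    rw [WithLp.ofLp_sum, Finset.sum_apply]
    simp only [WithLp.ofLp_smul, Pi.smul_apply, smul_eq_mul, hq]
    split_ifs <;> simp
  have hBes : Bes q := by
    intro X
    rw [EuclideanSpace.norm_sq_eq]
    have h1 : ∀ j, ‖(∑ i, X i • q i) j‖ ^ 2 ≤ ‖inner ℝ (b j) (WithLp.toLp 2 X)‖ ^ 2 := by
      intro j
      rw [hcomb X j, hinner]
      split_ifs
      · exact le_rfl
      · simp; positivity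
    refine (Finset.sum_le_sum fun j _ => h1 j).trans ?_
    rw [b.sum_sq_norm_inner_right, EuclideanSpace.norm_sq_eq]
    simp
  have hY : ∑ i, (b j0 i) • q i = 0 := by
    ext j
    rw [hcomb (fun i => b j0 i) j]
    split_ifs with hj
    · have h1 : inner ℝ (b j) (b j0) = (0 : ℝ) := by
        apply b.orthonormal.2
        rintro rfl
        exact hj0 hj
      rw [hinner] at h1
      simpa using h1
    · simp
  have hy0 : (fun i => b j0 i) ≠ 0 := by
    intro h
    have h1 := b.orthonormal.1 j0
    have h2 : b j0 = 0 := by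
      ext i
      exact congrFun h i
    rw [h2] at h1
    simp at h1
  have hmain := analytic G hBes (fun i => b j0 i) (x j0) (fun i => hb j0 i) hne hy0 hY
  have hTr : Tr G q = ∑ j ∈ J, (1 - x j) := by
    unfold Tr
    have h1 : ∑ i, ‖q i‖ ^ 2 = ∑ j ∈ J, (1 : ℝ) := by
      have : ∀ i, ‖q i‖ ^ 2 = ∑ j ∈ J, (b j i) ^ 2 := by
        intro i
        rw [EuclideanSpace.norm_sq_eq]
        simp only [hq]
        rw [← Finset.sum_filter_add_sum_filter_not univ (fun j => j ∈ J)]
        have e1 : ∑ j ∈ univ.filter (fun j => j ∈ J), ‖(if j ∈ J then b j i else 0 : ℝ)‖ ^ 2 =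
            ∑ j ∈ J, (b j i) ^ 2 := by
          have : univ.filter (fun j => j ∈ J) = J := by ext; simp
          rw [this]
          refine Finset.sum_congr rfl fun j hj => ?_
          rw [if_pos hj]; simp
        have e2 : ∑ j ∈ univ.filter (fun j => ¬ j ∈ J), ‖(if j ∈ J then b j i else 0 : ℝ)‖ ^ 2 = 0 := by
          refine Finset.sum_eq_zero fun j hj => ?_
          rw [if_neg (Finset.mem_filter.1 hj).2]; simp
        rw [e1, e2, add_zero]
      simp_rw [this]
      rw [Finset.sum_comm]
      refine Finset.sum_congr rfl fun j _ => ?_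
      have h2 := b.orthonormal.1 j
      have h3 : ‖b j‖ ^ 2 = 1 := by rw [h2]; norm_num
      rw [EuclideanSpace.norm_sq_eq] at h3
      simpa using h3
    have h2 : (∑ i, ∑ k, if G.Adj i k then ‖q i - q k‖ ^ 2 else 0) / 2 = ∑ j ∈ J, x j := by
      have e0 : ∀ i k, ‖q i - q k‖ ^ 2 = ∑ j ∈ J, (b j i - b j k) ^ 2 := by
        intro i k
        rw [EuclideanSpace.norm_sq_eq]
        rw [← Finset.sum_filter_add_sum_filter_not univ (fun j => j ∈ J)]
        have e1 : ∑ j ∈ univ.filter (fun j => j ∈ J), ‖(q i - q k) j‖ ^ 2 =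
            ∑ j ∈ J, (b j i - b j k) ^ 2 := by
          have : univ.filter (fun j => j ∈ J) = J := by ext; simp
          rw [this]
          refine Finset.sum_congr rfl fun j hj => ?_
          simp [hq, hj]
        have e2 : ∑ j ∈ univ.filter (fun j => ¬ j ∈ J), ‖(q i - q k) j‖ ^ 2 = 0 := by
          refine Finset.sum_eq_zero fun j hj => ?_
          have := (Finset.mem_filter.1 hj).2
          simp [hq, this]
        rw [e1, e2, add_zero]
      have e3 : ∑ i, ∑ k, (if G.Adj i k then ‖q i - q k‖ ^ 2 else 0) =
          ∑ j ∈ J, ∑ i, ∑ k, (if G.Adj i k then (b j i - b j k) ^ 2 else 0) := by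
        symm
        rw [Finset.sum_comm]
        refine Finset.sum_congr rfl fun i _ => ?_
        rw [Finset.sum_comm]
        refine Finset.sum_congr rfl fun k _ => ?_
        split_ifs with hik
        · exact (e0 i k).symm
        · simp
      rw [e3, Finset.sum_div]
      refine Finset.sum_congr rfl fun j _ => ?_
      -- the quadratic form of an eigenvector
      have h3 : ∑ i, ∑ k, (if G.Adj i k then (b j i - b j k) ^ 2 else 0) =
          2 * ∑ i, b j i * ∑ k, (if G.Adj i k then b j i - b j k else 0) := by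
        have a1 : ∑ i, ∑ k, (if G.Adj i k then (b j i - b j k) ^ 2 else 0) =
            ∑ i, ∑ k, (if G.Adj i k then b j i * (b j i - b j k) else 0) +
            ∑ i, ∑ k, (if G.Adj i k then b j k * (b j k - b j i) else 0) := by
          rw [← Finset.sum_add_distrib]
          refine Finset.sum_congr rfl fun i _ => ?_
          rw [← Finset.sum_add_distrib]
          refine Finset.sum_congr rfl fun k _ => ?_
          split_ifs
          · ring
          · ring
        have a2 : ∑ i, ∑ k, (if G.Adj i k then b j k * (b j k - b j i) else 0) =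
            ∑ i, ∑ k, (if G.Adj i k then b j i * (b j i - b j k) else 0) := by
          rw [Finset.sum_comm]
          refine Finset.sum_congr rfl fun i _ => Finset.sum_congr rfl fun k _ => ?_
          by_cases h : G.Adj i k
          · rw [if_pos h, if_pos h.symm]
          · rw [if_neg h, if_neg (fun h' => h h'.symm)]
        rw [a1, a2, two_mul]
        have a3 : ∀ i, ∑ k, (if G.Adj i k then b j i * (b j i - b j k) else 0) =
            b j i * ∑ k, (if G.Adj i k then b j i - b j k else 0) := by
          intro i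
          rw [Finset.mul_sum]
          refine Finset.sum_congr rfl fun k _ => ?_
          split_ifs <;> simp
        simp_rw [a3]
      rw [h3]
      have h4 : ∑ i, b j i * ∑ k, (if G.Adj i k then b j i - b j k else 0) = x j := by
        have a1 : ∀ i, b j i * ∑ k, (if G.Adj i k then b j i - b j k else 0) =
            x j * (b j i) ^ 2 := by
          intro i
          rw [hb j i]; ring
        simp_rw [a1]
        rw [← Finset.mul_sum]
        have h5 : ‖b j‖ ^ 2 = 1 := by rw [b.orthonormal.1 j]; norm_num
        rw [EuclideanSpace.norm_sq_eq] at h5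
        have h6 : ∑ i, (b j i) ^ 2 = 1 := by simpa using h5
        rw [h6, mul_one]
      rw [h4]
      ring
    rw [h1, h2, ← Finset.sum_sub_distrib]
  rw [hTr, Fintype.card_fin] at hmain
  linarith

end Pool.Agent.LSp
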