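import Mathlib
import Pool.Agent.LSp.Spectral

/-!
# The two families of facet inequalities
-/

namespace Pool.Agent.LSp

open Finset Pool.Agent.MP_8604ae_co

lemma seq_spectral {m : ℕ} {f : ℕ → ℝ} {G : SimpleGraph (Fin (m + 1))} (h : IsSp m f G)
    (q : ℕ) (hq1 : 1 ≤ q) (hq : q ≤ m) : f 0 + S f q ≤ S f (m + 1) + q + 1 := by
  classical
  rcases eq_or_ne (f 0) 0 with h0 | h0
  · -- the empty graph
    have hz : ∀ i, f i = 0 := fun i =>
      le_antisymm (by rw [← h0]; exact h.anti (Nat.zero_le i)) (h.nonneg i)
    have hS : ∀ p, S f p = 0 := fun p => Finset.sum_eq_zero fun i _ => hz i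
    rw [h0, hS, hS]
    have : (0 : ℝ) ≤ q := Nat.cast_nonneg q
    linarith
  · have hx : (G.lapMatrix ℝ).charpoly.roots =
        (univ : Finset (Fin (m + 1))).val.map (fun i : Fin (m + 1) => f i) := by
      have h1 := h.eq
      rw [ms_def, ← univ_map_val (m + 1), Multiset.map_map] at h1
      exact h1
    have h1 := spectral G (fun i : Fin (m + 1) => f i) hx (univ.filter (fun i => q ≤ (i : ℕ))) 0
      (by simp only [mem_filter, mem_univ, true_and, not_le, Fin.val_zero]; omega) h0
    rw [Finset.sum_filter, Fin.sum_univ_eq_sum_range (fun i => if q ≤ i then 1 - f i else 0)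
      (m + 1), ← Finset.sum_filter] at h1
    have h2 : (range (m + 1)).filter (fun i => q ≤ i) = Ico q (m + 1) := by
      ext i; simp only [mem_filter, mem_range, mem_Ico]; omega
    rw [h2, Finset.sum_sub_distrib, Finset.sum_const, Nat.card_Ico, nsmul_eq_mul, mul_one,
      Nat.cast_sub (by omega)] at h1
    have h3 := Finset.sum_range_add_sum_Ico f (show q ≤ m + 1 by omega)
    have h4 : S f q = ∑ k ∈ range q, f k := rfl
    have h5 : S f (m + 1) = ∑ k ∈ range (m + 1), f k := rfl
    push_cast at h1
    simp only [Fin.val_zero] at h1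
    linarith

lemma seq_spectral' {m : ℕ} {f : ℕ → ℝ} {G : SimpleGraph (Fin (m + 1))} (h : IsSp m f G)
    (p : ℕ) (hp1 : 1 ≤ p) (hp : p + 1 ≤ m) : S f p + S f (m - 1) ≤ S f (m + 1) + p * m := by
  have h1 := seq_spectral (isSp_R h) (m - p) (by omega) (by omega)
  have h0 : R m f 0 = (m + 1 : ℝ) - f (m - 1) := by
    have : (0 : ℕ) < m := by omega
    simp [R, this]
  have h2 : S (R m f) (m + 1) - S (R m f) (m - p) = p * (m + 1 : ℝ) - S f p := by
    have e1 : S (R m f) (m + 1) = S (R m f) m := by
      rw [S_succ, (isSp_R h).zero m le_rfl, add_zero]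
    have e2 := Finset.sum_range_add_sum_Ico (R m f) (show m - p ≤ m by omega)
    have e3 : ∑ k ∈ Ico (m - p) m, R m f k = p * (m + 1 : ℝ) - S f p := by
      have e4 : ∑ k ∈ Ico (m - p) m, R m f k = ∑ k ∈ Ico (m - p) m, ((m + 1 : ℝ) - f (m - 1 - k)) := by
        refine Finset.sum_congr rfl fun k hk => ?_
        rw [mem_Ico] at hk
        simp [R, hk.2]
      rw [e4, Finset.sum_sub_distrib, Finset.sum_const, Nat.card_Ico, nsmul_eq_mul]
      have e5 : ((m - (m - p) : ℕ) : ℝ) = p := by
        congr 1; omega
      rw [e5]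
      congr 1
      have e6 : ∑ k ∈ Ico (m - p) m, f (m - 1 - k) = ∑ k ∈ range p, f k := by
        rw [Finset.sum_Ico_eq_sum_range]
        have : m - (m - p) = p := by omega
        rw [this, ← Finset.sum_range_reflect (fun k => f k) p]
        refine Finset.sum_congr rfl fun k hk => ?_
        rw [mem_range] at hk
        congr 1; omega
      exact e6
    rw [e1]
    have e7 : S (R m f) m = ∑ k ∈ range m, R m f k := rfl
    have e8 : S (R m f) (m - p) = ∑ k ∈ range (m - p), R m f k := rfl
    rw [e7, e8]
    linarith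
  have h3 : S f (m + 1) = S f (m - 1) + f (m - 1) := by
    rw [S_succ, h.zero m le_rfl, add_zero]
    conv_lhs => rw [show m = (m - 1) + 1 by omega]
    rw [S_succ]
  rw [h0] at h1
  rw [Nat.cast_sub (by omega)] at h1
  linarith

/-- The two families for `IsSpectrum`, and the form with positive parts. -/
theorem final (n : ℕ) (G : SimpleGraph (Fin n)) (x : Fin n → ℝ) (hx : IsSpectrum G x) :
    (∀ q : ℕ, 1 ≤ q → q < n → topSum x 1 + topSum x q ≤ topSum x n + 1 * (q + 1)) ∧
    (∀ p : ℕ, 1 ≤ p → p ≤ n - 2 → topSum x p + topSum x (n - 2) ≤ topSum x n + p * (n - 1)) ∧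
    (∀ i₀ : Fin n, (i₀ : ℕ) = 0 →
      x i₀ + ∑ i ∈ univ.filter (fun i : Fin n => (i : ℕ) + 1 < n), max (1 - x i) 0 ≤ n) := by
  rcases Nat.eq_zero_or_pos n with rfl | hpos
  · refine ⟨fun q _ h => absurd h (by omega), fun p h1 h2 => absurd h2 (by omega),
      fun i => i.elim0⟩
  obtain ⟨m, rfl⟩ : ∃ m, n = m + 1 := ⟨n - 1, by omega⟩
  have h := (isSpectrum_iff G x).1 hx
  have hfirst : ∀ q : ℕ, 1 ≤ q → q < m + 1 →
      topSum x 1 + topSum x q ≤ topSum x (m + 1) + 1 * (q + 1) := by
    intro q hq1 hq
    rw [topSum_eq, topSum_eq, topSum_eq]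
    have h1 := seq_spectral h q hq1 (by omega)
    have h2 : S (E (m + 1) x) 1 = E (m + 1) x 0 := by simp [S]
    rw [h2]; linarith
  refine ⟨hfirst, ?_, ?_⟩
  · intro p hp1 hp
    rw [topSum_eq, topSum_eq, topSum_eq]
    have h1 := seq_spectral' h p hp1 (by omega)
    have h2 : m + 1 - 2 = m - 1 := by omega
    rw [h2]
    push_cast
    linarith
  · intro i₀ hi₀
    -- the number of the entries `≥ 1`
    rcases Nat.eq_zero_or_pos m with rfl | hm
    · have h0 : x i₀ = 0 := by
        have h1 := h.zero 0 le_rfl
        have h2 := E_apply_fin x i₀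
        rw [hi₀] at h2
        rw [← h2]; exact h1
      rw [h0, Finset.sum_eq_zero]
      · simp
      · intro i hi
        simp only [mem_filter, mem_univ, true_and] at hi
        omega
    obtain ⟨f, hf⟩ : ∃ f, f = E (m + 1) x := ⟨_, rfl⟩
    have hxf : ∀ i : Fin (m + 1), x i = f i := fun i => by rw [hf, E_apply_fin]
    rw [← hf] at h
    have hsum : ∑ i ∈ univ.filter (fun i : Fin (m + 1) => (i : ℕ) + 1 < m + 1), max (1 - x i) 0 =
        ∑ i ∈ range m, max (1 - f i) 0 := by
      simp_rw [hxf]
      rw [Finset.sum_filter, Fin.sum_univ_eq_sum_range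
        (fun i => if i + 1 < m + 1 then max (1 - f i) 0 else 0) (m + 1), ← Finset.sum_filter]
      congr 1
      ext i; simp only [mem_filter, mem_range]; omega
    rw [hsum, hxf, hi₀]
    -- choose `q`
    by_cases hall : ∀ i ∈ range m, f i < 1
    · -- then `f 0 < 1`, and the graph is empty; use `q = 1` and `f 0 = 0`
      have h0 := hall 0 (by simpa using hm)
      have h1 := seq_spectral h m (by omega) le_rfl
      have h5 : S f (m + 1) = S f m := by rw [S_succ, h.zero m le_rfl, add_zero]
      have hle : ∀ i ∈ range m, max (1 - f i) 0 ≤ 1 := by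
        intro i _
        rw [max_le_iff]
        exact ⟨by linarith [h.nonneg i], zero_le_one⟩
      calc f 0 + ∑ i ∈ range m, max (1 - f i) 0 ≤ 1 + ∑ i ∈ range m, (1 : ℝ) := by
            exact add_le_add h0.le (Finset.sum_le_sum hle)
        _ = _ := by simp; ring
    · push Not at hall
      obtain ⟨i1, hi1, hi1'⟩ := hall
      have hP : ∃ q, q ≤ m ∧ 1 ≤ q ∧ (∀ i, i < q → 1 ≤ f i) ∧ (∀ i, q ≤ i → i < m → f i < 1) := by
        classical
        obtain ⟨q, hq⟩ : ∃ q, q = ((range m).filter (fun i => 1 ≤ f i)).card := ⟨_, rfl⟩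
        have hfil : (range m).filter (fun i => 1 ≤ f i) = range q := by
          have hinit : ∀ i ∈ (range m).filter (fun i => 1 ≤ f i), ∀ j ≤ i,
              j ∈ (range m).filter (fun i => 1 ≤ f i) := by
            intro i hi j hj
            simp only [mem_filter, mem_range] at hi ⊢
            exact ⟨by omega, hi.2.trans (h.anti hj)⟩
          -- an initial segment of cardinality `q`
          apply Finset.eq_of_subset_of_card_le
          · intro i hi
            rw [mem_range, hq]
            have : range (i + 1) ⊆ (range m).filter (fun i => 1 ≤ f i) := by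
              intro j hj
              rw [mem_range] at hj
              exact hinit i hi j (by omega)
            have := Finset.card_le_card this
            rw [card_range] at this
            omega
          · rw [card_range, hq]
        refine ⟨q, ?_, ?_, ?_, ?_⟩
        · rw [hq]
          exact (Finset.card_filter_le _ _).trans (by simp)
        · have : i1 ∈ range q := by
            rw [← hfil, mem_filter]; exact ⟨hi1, hi1'⟩
          rw [mem_range] at this
          omega
        · intro i hi
          have : i ∈ range q := by rw [mem_range]; exact hi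
          rw [← hfil, mem_filter] at this
          exact this.2
        · intro i hi hi2
          by_contra hcon
          have : i ∈ range q := by
            rw [← hfil, mem_filter, mem_range]; exact ⟨hi2, not_lt.1 hcon⟩
          rw [mem_range] at this
          omega
      obtain ⟨q, hqm, hq1, hbig, hsmall⟩ := hP
      have h1 := seq_spectral h q hq1 hqm
      have h5 : S f (m + 1) = S f m := by rw [S_succ, h.zero m le_rfl, add_zero]
      have h6 : ∑ i ∈ range m, max (1 - f i) 0 = ∑ i ∈ Ico q m, (1 - f i) := by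
        rw [← Finset.sum_range_add_sum_Ico _ hqm]
        have e1 : ∑ i ∈ range q, max (1 - f i) 0 = 0 := Finset.sum_eq_zero fun i hi => by
          rw [mem_range] at hi
          exact max_eq_right (by linarith [hbig i hi])
        rw [e1, zero_add]
        refine Finset.sum_congr rfl fun i hi => ?_
        rw [mem_Ico] at hi
        exact max_eq_left (by linarith [hsmall i hi.1 hi.2])
      rw [h6, Finset.sum_sub_distrib, Finset.sum_const, Nat.card_Ico, nsmul_eq_mul, mul_one,
        Nat.cast_sub hqm]
      have h7 := Finset.sum_range_add_sum_Ico f hqm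
      have h8 : S f q = ∑ k ∈ range q, f k := rfl
      have h9 : S f m = ∑ k ∈ range m, f k := rfl
      push_cast
      linarith

/-- All facet inequalities with `p = 1` or `n - 2 ≤ q`. -/
theorem facets (n : ℕ) (G : SimpleGraph (Fin n)) (x : Fin n → ℝ) (hx : IsSpectrum G x)
    (p q : ℕ) (hp : 1 ≤ p) (hpq : p ≤ q) (hq : q < n) (h : p = 1 ∨ n ≤ q + 2) :
    topSum x p + topSum x q ≤ topSum x n + p * (q + 1) := by
  have hfin := final n G x hx
  rcases h with rfl | h
  · have h1 := hfin.1 q hpq hq
    simpa using h1
  · rcases Nat.lt_or_ge (q + 1) n with h1 | h1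
    · have h2 : q = n - 2 := by omega
      have h3 := hfin.2.1 p hp (by omega)
      rw [← h2] at h3
      have h4 : (n : ℝ) = q + 2 := by
        have : n = q + 2 := by omega
        rw [this]; push_cast; ring
      rw [h4] at h3
      linarith
    · obtain ⟨m, rfl⟩ : ∃ m, n = m + 1 := ⟨n - 1, by omega⟩
      have hqm : q = m := by omega
      subst hqm
      have h := (isSpectrum_iff G x).1 hx
      rw [topSum_eq, topSum_eq, topSum_eq, S_succ, h.zero q le_rfl, add_zero]
      have h2 : S (E (q + 1) x) p ≤ ∑ i ∈ range p, ((q : ℝ) + 1) := 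
        Finset.sum_le_sum fun i _ => h.le i
      rw [Finset.sum_const, card_range, nsmul_eq_mul] at h2
      linarith

end Pool.Agent.LSp
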